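import Mathlib

/-!
# The convolution algebra of integrable functions on the line

Basic facts on the convolution `cv f g` of integrable real functions, the existence of a
quasi-inverse of a function of norm less than one, exponential weights and multiplication by `x`.
-/

set_option autoImplicit false

open MeasureTheory Set Filter Topology
open scoped Convolution ENNReal

namespace Pool.Agent.L7h75.SF

/-- Convolution of real functions on the line. -/
noncomputable def cv (f g : ℝ → ℝ) : ℝ → ℝ :=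
  f ⋆[ContinuousLinearMap.mul ℝ ℝ, volume] g

theorem cv_apply (f g : ℝ → ℝ) (x : ℝ) : cv f g x = ∫ t, f t * g (x - t) := rfl

/-- `f t * g (x - t)` is integrable in `t`. -/
def CvAt (f g : ℝ → ℝ) (x : ℝ) : Prop := Integrable (fun t => f t * g (x - t))

theorem cv_comm (f g : ℝ → ℝ) : cv f g = cv g f := by
  funext x
  rw [cv_apply, cv_apply]
  rw [← integral_sub_left_eq_self (fun t => f t * g (x - t)) volume x]
  refine integral_congr_ae (Eventually.of_forall fun t => ?_)
  simp only [sub_sub_cancel]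
  ring

theorem CvAt.symm {f g : ℝ → ℝ} {x : ℝ} (h : CvAt f g x) : CvAt g f x := by
  have := h.comp_sub_left x
  simp only [sub_sub_cancel] at this
  exact this.congr (Eventually.of_forall fun t => by simp only; ring)

theorem integrable_cv {f g : ℝ → ℝ} (hf : Integrable f) (hg : Integrable g) :
    Integrable (cv f g) :=
  hf.integrable_convolution (ContinuousLinearMap.mul ℝ ℝ) hg

theorem ae_cvAt {f g : ℝ → ℝ} (hf : Integrable f) (hg : Integrable g) :
    ∀ᵐ x : ℝ, CvAt f g x :=
  hf.ae_convolution_exists (ContinuousLinearMap.mul ℝ ℝ) hg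

theorem integral_cv {f g : ℝ → ℝ} (hf : Integrable f) (hg : Integrable g) :
    ∫ x, cv f g x = (∫ x, f x) * ∫ x, g x :=
  integral_convolution (ContinuousLinearMap.mul ℝ ℝ) hf hg

theorem cv_congr {f f' g g' : ℝ → ℝ} (hf : f =ᵐ[volume] f') (hg : g =ᵐ[volume] g') :
    cv f g = cv f' g' :=
  convolution_congr (ContinuousLinearMap.mul ℝ ℝ) hf hg

theorem cv_add_right {f g g' : ℝ → ℝ} (hf : Integrable f) (hg : Integrable g)
    (hg' : Integrable g') : cv f (g + g') =ᵐ[volume] cv f g + cv f g' := by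
  filter_upwards [ae_cvAt hf hg, ae_cvAt hf hg'] with x h1 h2
  simp only [cv_apply, Pi.add_apply, mul_add]
  exact integral_add h1 h2

theorem cv_add_left {f f' g : ℝ → ℝ} (hf : Integrable f) (hf' : Integrable f')
    (hg : Integrable g) : cv (f + f') g =ᵐ[volume] cv f g + cv f' g := by
  rw [cv_comm (f + f') g, cv_comm f g, cv_comm f' g]
  exact cv_add_right hg hf hf'

theorem cv_smul_right (f g : ℝ → ℝ) (c : ℝ) : cv f (c • g) = c • cv f g := by
  funext x
  simp only [cv_apply, Pi.smul_apply, smul_eq_mul]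
  rw [← integral_const_mul]
  congr 1
  funext t
  ring

theorem cv_neg_right (f g : ℝ → ℝ) : cv f (-g) = - cv f g := by
  have := cv_smul_right f g (-1)
  simpa using this

theorem cv_neg_left (f g : ℝ → ℝ) : cv (-f) g = - cv f g := by
  rw [cv_comm (-f) g, cv_neg_right, cv_comm g f]

theorem cv_assoc {f g k : ℝ → ℝ} (hf : Integrable f) (hg : Integrable g) (hk : Integrable k) :
    cv (cv f g) k =ᵐ[volume] cv f (cv g k) := by
  have h3 := (hf.norm).ae_convolution_exists (ContinuousLinearMap.mul ℝ ℝ) (μ := volume)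
    ((hg.norm).integrable_convolution (ContinuousLinearMap.mul ℝ ℝ) hk.norm)
  filter_upwards [h3] with x hx
  refine convolution_assoc (ContinuousLinearMap.mul ℝ ℝ) (ContinuousLinearMap.mul ℝ ℝ)
    (ContinuousLinearMap.mul ℝ ℝ) (ContinuousLinearMap.mul ℝ ℝ) (fun a b c => ?_)
    hf.aestronglyMeasurable hg.aestronglyMeasurable hk.aestronglyMeasurable
    (hf.ae_convolution_exists (ContinuousLinearMap.mul ℝ ℝ) hg)
    ((hg.norm).ae_convolution_exists (ContinuousLinearMap.mul ℝ ℝ) hk.norm) hx
  simp [mul_assoc]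

theorem norm_cv_le {f g : ℝ → ℝ} (hf : Integrable f) (hg : Integrable g) :
    ∫ x, ‖cv f g x‖ ≤ (∫ x, ‖f x‖) * ∫ x, ‖g x‖ := by
  rw [← integral_cv hf.norm hg.norm]
  refine integral_mono (integrable_cv hf hg).norm (integrable_cv hf.norm hg.norm) fun x => ?_
  simp only [cv_apply]
  refine (norm_integral_le_integral_norm _).trans (le_of_eq ?_)
  congr 1
  funext t
  exact norm_mul _ _

/-- Exponential weight. -/
noncomputable def ew (s : ℝ) (f : ℝ → ℝ) : ℝ → ℝ := fun x => Real.exp (-(s * x)) * f x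

theorem ew_cv (s : ℝ) (f g : ℝ → ℝ) : ew s (cv f g) = cv (ew s f) (ew s g) := by
  funext x
  simp only [ew, cv_apply]
  rw [← integral_const_mul]
  congr 1
  funext t
  have : Real.exp (-(s * x)) = Real.exp (-(s * t)) * Real.exp (-(s * (x - t))) := by
    rw [← Real.exp_add]; congr 1; ring
  rw [this]; ring

theorem ew_ew (s t : ℝ) (f : ℝ → ℝ) : ew s (ew t f) = ew (s + t) f := by
  funext x
  simp only [ew]
  rw [← mul_assoc, ← Real.exp_add]
  congr 2; ring

theorem ew_zero (f : ℝ → ℝ) : ew 0 f = f := by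
  funext x; simp [ew]

/-- Multiplication by the variable. -/
def mx (f : ℝ → ℝ) : ℝ → ℝ := fun x => x * f x

theorem mx_cv {f g : ℝ → ℝ} (hf : Integrable f) (hg : Integrable g)
    (hmf : Integrable (mx f)) (hmg : Integrable (mx g)) :
    mx (cv f g) =ᵐ[volume] cv (mx f) g + cv f (mx g) := by
  filter_upwards [ae_cvAt hmf hg, ae_cvAt hf hmg] with x h1 h2
  have e := integral_add h1 h2
  simp only [Pi.add_apply, cv_apply]
  rw [← e]
  simp only [mx, cv_apply]
  rw [← integral_const_mul]
  congr 1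
  funext t
  ring

/-- Convolution with a fixed integrable function, as an operator on `L¹`. -/
noncomputable def cvL (g : ℝ → ℝ) (hg : Integrable g) :
    (Lp ℝ 1 (volume : Measure ℝ)) →L[ℝ] (Lp ℝ 1 (volume : Measure ℝ)) :=
  LinearMap.mkContinuous
    { toFun := fun f => (integrable_cv hg (L1.integrable_coeFn f)).toL1 _
      map_add' := by
        intro f f'
        rw [← Integrable.toL1_add]
        refine (Integrable.toL1_eq_toL1_iff _ _ _ _).2 ?_
        have h1 : cv g (⇑(f + f')) = cv g (⇑f + ⇑f') :=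
          cv_congr (ae_eq_refl _) (Lp.coeFn_add f f')
        rw [h1]
        exact cv_add_right hg (L1.integrable_coeFn f) (L1.integrable_coeFn f')
      map_smul' := by
        intro c f
        rw [RingHom.id_apply, ← Integrable.toL1_smul]
        refine (Integrable.toL1_eq_toL1_iff _ _ _ _).2 ?_
        have h1 : cv g (⇑(c • f)) = cv g (c • ⇑f) :=
          cv_congr (ae_eq_refl _) (Lp.coeFn_smul c f)
        rw [h1, cv_smul_right]
        exact ae_eq_refl _ }
    (∫ x, ‖g x‖)
    (by
      intro f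
      simp only [LinearMap.coe_mk, AddHom.coe_mk]
      rw [L1.norm_eq_integral_norm, L1.norm_eq_integral_norm]
      have h1 : ∫ x, ‖((integrable_cv hg (L1.integrable_coeFn f)).toL1 _ :
          Lp ℝ 1 (volume : Measure ℝ)) x‖ = ∫ x, ‖cv g f x‖ := by
        refine integral_congr_ae ?_
        filter_upwards [Integrable.coeFn_toL1 (integrable_cv hg (L1.integrable_coeFn f))]
          with x hx
        rw [hx]
      rw [h1]
      exact norm_cv_le hg (L1.integrable_coeFn f))

theorem norm_cvL_le (g : ℝ → ℝ) (hg : Integrable g) : ‖cvL g hg‖ ≤ ∫ x, ‖g x‖ :=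
  LinearMap.mkContinuous_norm_le _ (integral_nonneg fun _ => norm_nonneg _) _

theorem cvL_coe (g : ℝ → ℝ) (hg : Integrable g) (f : Lp ℝ 1 (volume : Measure ℝ)) :
    (cvL g hg f : ℝ → ℝ) =ᵐ[volume] cv g f :=
  Integrable.coeFn_toL1 (integrable_cv hg (L1.integrable_coeFn f))

/-- Existence of a quasi-inverse. -/
theorem exists_quasiInverse (g : ℝ → ℝ) (hg : Integrable g) (h1 : ∫ x, ‖g x‖ < 1) :
    ∃ h : ℝ → ℝ, Integrable h ∧ h + g + cv g h =ᵐ[volume] 0 := by
  set T := cvL g hg with hT
  have hTn : ‖-T‖ < 1 := by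
    rw [norm_neg]; exact (norm_cvL_le g hg).trans_lt h1
  have hu : IsUnit (1 - (-T)) := isUnit_one_sub_of_norm_lt_one hTn
  obtain ⟨u, hu⟩ := hu
  set G : Lp ℝ 1 (volume : Measure ℝ) := hg.toL1 g with hG
  set h : Lp ℝ 1 (volume : Measure ℝ) := -((↑(u⁻¹) :
    (Lp ℝ 1 (volume : Measure ℝ)) →L[ℝ] (Lp ℝ 1 (volume : Measure ℝ))) G) with hh
  have key : h + T h = -G := by
    have e1 : h + T h = (u : (Lp ℝ 1 (volume : Measure ℝ)) →L[ℝ] _) h := by
      rw [hu]; simp
    rw [e1, hh, map_neg]
    have e2 : (u : (Lp ℝ 1 (volume : Measure ℝ)) →L[ℝ] _)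
        ((↑(u⁻¹) : (Lp ℝ 1 (volume : Measure ℝ)) →L[ℝ] _) G) = G := by
      rw [← mul_apply_eq_comp, Units.mul_inv]; simp
    rw [e2]
  refine ⟨h, L1.integrable_coeFn h, ?_⟩
  have k1 := Lp.coeFn_add h (T h)
  have k2 := cvL_coe g hg h
  have k3 := Lp.coeFn_neg G
  have k4 : (G : ℝ → ℝ) =ᵐ[volume] g := hg.coeFn_toL1
  rw [key] at k1
  filter_upwards [k1, k2, k3, k4] with x a1 a2 a3 a4
  simp only [Pi.add_apply, Pi.zero_apply, Pi.neg_apply] at *
  rw [a3, a4] at a1
  rw [a2] at a1
  linarith

end Pool.Agent.L7h75.SF
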