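import Mathlib

/-!
# The kernel of a Lévy measure on the negative half-line
-/

set_option autoImplicit false

open MeasureTheory Set Filter Topology
open scoped ENNReal

namespace Pool.Agent.L7h75.SF

/-- `min 1 x²` as an extended nonnegative real -/
noncomputable def rho (x : ℝ) : ℝ≥0∞ := ENNReal.ofReal (min 1 (x ^ 2))

theorem rho_measurable : Measurable rho := by
  unfold rho
  fun_prop

theorem rho_ne_top (x : ℝ) : rho x ≠ ⊤ := ENNReal.ofReal_ne_top

theorem rho_ne_zero {x : ℝ} (hx : x ≠ 0) : rho x ≠ 0 := by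
  unfold rho
  have : 0 < min 1 (x ^ 2) := lt_min one_pos (by positivity)
  rw [Ne, ENNReal.ofReal_eq_zero, not_le]
  exact this

structure LevyNeg (μ : Measure ℝ) : Prop where
  pos : μ (Ici 0) = 0
  fin : ∫⁻ x, ENNReal.ofReal (min 1 (x ^ 2)) ∂μ < ⊤

variable {μ : Measure ℝ}

theorem LevyNeg.ae_neg (h : LevyNeg μ) : ∀ᵐ y ∂μ, y < 0 := by
  have := h.pos
  rw [ae_iff]
  convert this using 2
  ext x; simp

theorem LevyNeg.sFinite (h : LevyNeg μ) : SFinite μ := by
  have h1 : IsFiniteMeasure (μ.withDensity rho) :=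
    isFiniteMeasure_withDensity (by exact h.fin.ne)
  have h2 : (μ.withDensity rho).withDensity (rho⁻¹) = μ := by
    refine withDensity_inv_same rho_measurable ?_ ?_
    · filter_upwards [h.ae_neg] with y hy
      exact rho_ne_zero hy.ne
    · exact Eventually.of_forall fun y => rho_ne_top y
  rw [← h2]
  infer_instance

/-- the kernel -/
noncomputable def ker (y x : ℝ) : ℝ := (Ioi (-1 : ℝ)).indicator (fun y => -y) y - min (-y) x

theorem ker_measurable : Measurable (Function.uncurry ker) := by
  unfold ker Function.uncurry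
  refine Measurable.sub ?_ (by fun_prop)
  have h1 : Measurable ((Ioi (-1 : ℝ)).indicator (fun y : ℝ => -y)) :=
    (measurable_neg).indicator measurableSet_Ioi
  exact h1.comp measurable_fst

/-- indicator of `x < -y`. -/
noncomputable def ind (y x : ℝ) : ℝ := if x < -y then 1 else 0

theorem ind_measurable : Measurable (Function.uncurry ind) := by
  unfold ind Function.uncurry
  refine Measurable.ite ?_ measurable_const measurable_const
  exact measurableSet_lt measurable_snd measurable_fst.neg

theorem ker_of_lt {y x : ℝ} (h1 : -1 < y) : ker y x = -y - min (-y) x := by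
  unfold ker; rw [indicator_of_mem (by simpa using h1)]

theorem ker_of_le {y x : ℝ} (h1 : y ≤ -1) : ker y x = - min (-y) x := by
  unfold ker; rw [indicator_of_notMem (by simpa using h1)]; ring

/-- Integrability on the product from a bound. -/
theorem prod_integrable (h : LevyNeg μ) {K : ℝ → ℝ → ℝ} (hK : Measurable (Function.uncurry K))
    {C : ℝ≥0∞} (hC : C ≠ ⊤)
    (hb : ∀ y < 0, ∫⁻ x in Ioi (0:ℝ), ‖K y x‖ₑ ≤ C * rho y) :
    Integrable (Function.uncurry K) (μ.prod (volume.restrict (Ioi 0))) := by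
  have := h.sFinite
  refine ⟨hK.aestronglyMeasurable, ?_⟩
  rw [HasFiniteIntegral, lintegral_prod _ hK.enorm.aemeasurable]
  have : ∫⁻ y, (∫⁻ x in Ioi (0:ℝ), ‖Function.uncurry K (y, x)‖ₑ) ∂μ ≤ ∫⁻ y, C * rho y ∂μ := by
    refine lintegral_mono_ae ?_
    filter_upwards [h.ae_neg] with y hy
    exact hb y hy
  refine this.trans_lt ?_
  rw [lintegral_const_mul _ rho_measurable]
  exact ENNReal.mul_lt_top hC.lt_top h.fin

theorem xexp_fin {β : ℝ} (hβ : 0 < β) :
    ∫⁻ x in Ioi (0:ℝ), ENNReal.ofReal (x * Real.exp (-(β * x))) ≠ ⊤ := by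
  have h1 : IntegrableOn (fun x => (2 / β) * Real.exp (-(β / 2) * x)) (Ioi 0) :=
    (exp_neg_integrableOn_Ioi 0 (by positivity)).const_mul _
  have h2 : ∫⁻ x in Ioi (0:ℝ), ENNReal.ofReal (x * Real.exp (-(β * x))) ≤
      ∫⁻ x in Ioi (0:ℝ), ‖(2 / β) * Real.exp (-(β / 2) * x)‖ₑ := by
    refine lintegral_mono fun x => ?_
    rw [Real.enorm_eq_ofReal (by positivity)]
    refine ENNReal.ofReal_le_ofReal ?_
    have h3 : β / 2 * x ≤ Real.exp (β / 2 * x) := by
      linarith [Real.add_one_le_exp (β / 2 * x)]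
    have h4 : x ≤ 2 / β * Real.exp (β / 2 * x) := by
      rw [div_mul_eq_mul_div, le_div_iff₀ hβ]; linarith
    calc x * Real.exp (-(β * x)) ≤ (2 / β * Real.exp (β / 2 * x)) * Real.exp (-(β * x)) :=
          mul_le_mul_of_nonneg_right h4 (Real.exp_pos _).le
      _ = 2 / β * Real.exp (-(β / 2) * x) := by
          rw [mul_assoc, ← Real.exp_add]; congr 2; ring
  exact (h2.trans_lt h1.2).ne

theorem rho_small {y : ℝ} (h1 : -1 < y) (h2 : y < 0) :
    rho y = ENNReal.ofReal (-y) * ENNReal.ofReal (-y) := by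
  unfold rho
  rw [← ENNReal.ofReal_mul (by linarith)]
  congr 1
  rw [min_eq_right (by nlinarith)]; ring

theorem rho_big {y : ℝ} (h1 : y ≤ -1) : rho y = 1 := by
  unfold rho
  rw [min_eq_left (by nlinarith)]; simp

theorem prod_ker (h : LevyNeg μ) {β : ℝ} (hβ : 0 < β) :
    Integrable (Function.uncurry fun y x => Real.exp (-(β * x)) * ker y x)
      (μ.prod (volume.restrict (Ioi 0))) := by
  refine prod_integrable h ?_ (C := 1 + ∫⁻ x in Ioi (0:ℝ), ENNReal.ofReal
    (x * Real.exp (-(β * x)))) (ENNReal.add_ne_top.2 ⟨ENNReal.one_ne_top, xexp_fin hβ⟩) ?_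
  · have : Measurable fun p : ℝ × ℝ => Real.exp (-(β * p.2)) := by fun_prop
    exact this.mul ker_measurable
  · intro y hy
    rcases lt_or_ge (-1) y with h1 | h1
    · have hle : ∀ x, 0 < x → ‖Real.exp (-(β * x)) * ker y x‖ₑ ≤
          (Ioo 0 (-y)).indicator (fun _ => ENNReal.ofReal (-y)) x := by
        intro x hx
        rw [ker_of_lt h1]
        by_cases hxy : x < -y
        · rw [indicator_of_mem (show x ∈ Ioo 0 (-y) from ⟨hx, hxy⟩)]
          rw [min_eq_right hxy.le, Real.enorm_eq_ofReal (mul_nonneg (Real.exp_pos _).le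
            (by linarith))]
          refine ENNReal.ofReal_le_ofReal ?_
          have h2 : Real.exp (-(β * x)) ≤ 1 := by
            rw [Real.exp_le_one_iff]; have : 0 < β * x := mul_pos hβ hx; linarith
          calc Real.exp (-(β * x)) * (-y - x) ≤ 1 * (-y - x) :=
                mul_le_mul_of_nonneg_right h2 (by linarith)
            _ ≤ -y := by linarith
        · rw [min_eq_left (not_lt.1 hxy), sub_self, mul_zero]
          simp
      calc ∫⁻ x in Ioi (0:ℝ), ‖Real.exp (-(β * x)) * ker y x‖ₑ
          ≤ ∫⁻ x in Ioi (0:ℝ), (Ioo 0 (-y)).indicator (fun _ => ENNReal.ofReal (-y)) x :=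
            setLIntegral_mono' measurableSet_Ioi hle
        _ ≤ ∫⁻ x, (Ioo 0 (-y)).indicator (fun _ => ENNReal.ofReal (-y)) x :=
            setLIntegral_le_lintegral _ _
        _ = rho y := by
            rw [lintegral_indicator measurableSet_Ioo, setLIntegral_const, Real.volume_Ioo,
              sub_zero, rho_small h1 hy]
        _ ≤ _ := by
            refine le_mul_of_one_le_left (zero_le) ?_
            exact le_self_add
    · have hle : ∀ x, 0 < x → ‖Real.exp (-(β * x)) * ker y x‖ₑ ≤
          ENNReal.ofReal (x * Real.exp (-(β * x))) := by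
        intro x hx
        rw [ker_of_le h1, enorm_mul, enorm_neg, Real.enorm_eq_ofReal (Real.exp_pos _).le,
          Real.enorm_eq_ofReal (le_min (by linarith) hx.le),
          ← ENNReal.ofReal_mul (Real.exp_pos _).le]
        refine ENNReal.ofReal_le_ofReal ?_
        rw [mul_comm]
        exact mul_le_mul_of_nonneg_right (min_le_right _ _) (Real.exp_pos _).le
      rw [rho_big h1, mul_one]
      exact (setLIntegral_mono' measurableSet_Ioi hle).trans le_add_self

theorem prod_ind (h : LevyNeg μ) {β : ℝ} (hβ : 0 < β) :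
    Integrable (Function.uncurry fun y x => Real.exp (-(β * x)) * (x * ind y x))
      (μ.prod (volume.restrict (Ioi 0))) := by
  refine prod_integrable h ?_ (C := 1 + ∫⁻ x in Ioi (0:ℝ), ENNReal.ofReal
    (x * Real.exp (-(β * x)))) (ENNReal.add_ne_top.2 ⟨ENNReal.one_ne_top, xexp_fin hβ⟩) ?_
  · have : Measurable fun p : ℝ × ℝ => Real.exp (-(β * p.2)) := by fun_prop
    exact this.mul (measurable_snd.mul ind_measurable)
  · intro y hy
    rcases lt_or_ge (-1) y with h1 | h1
    · have hle : ∀ x, 0 < x → ‖Real.exp (-(β * x)) * (x * ind y x)‖ₑ ≤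
          (Ioo 0 (-y)).indicator (fun _ => ENNReal.ofReal (-y)) x := by
        intro x hx
        by_cases hxy : x < -y
        · rw [indicator_of_mem (show x ∈ Ioo 0 (-y) from ⟨hx, hxy⟩)]
          have : ind y x = 1 := by unfold ind; rw [if_pos hxy]
          rw [this, mul_one, Real.enorm_eq_ofReal (mul_nonneg (Real.exp_pos _).le hx.le)]
          refine ENNReal.ofReal_le_ofReal ?_
          have h2 : Real.exp (-(β * x)) ≤ 1 := by
            rw [Real.exp_le_one_iff]; have : 0 < β * x := mul_pos hβ hx; linarith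
          calc Real.exp (-(β * x)) * x ≤ 1 * x :=
                mul_le_mul_of_nonneg_right h2 (by linarith)
            _ ≤ -y := by linarith
        · have : ind y x = 0 := by unfold ind; rw [if_neg hxy]
          rw [this]
          simp
      calc ∫⁻ x in Ioi (0:ℝ), ‖Real.exp (-(β * x)) * (x * ind y x)‖ₑ
          ≤ ∫⁻ x in Ioi (0:ℝ), (Ioo 0 (-y)).indicator (fun _ => ENNReal.ofReal (-y)) x :=
            setLIntegral_mono' measurableSet_Ioi hle
        _ ≤ ∫⁻ x, (Ioo 0 (-y)).indicator (fun _ => ENNReal.ofReal (-y)) x :=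
            setLIntegral_le_lintegral _ _
        _ = rho y := by
            rw [lintegral_indicator measurableSet_Ioo, setLIntegral_const, Real.volume_Ioo,
              sub_zero, rho_small h1 hy]
        _ ≤ _ := by
            refine le_mul_of_one_le_left (zero_le) ?_
            exact le_self_add
    · have hle : ∀ x, 0 < x → ‖Real.exp (-(β * x)) * (x * ind y x)‖ₑ ≤
          ENNReal.ofReal (x * Real.exp (-(β * x))) := by
        intro x hx
        have h0 : 0 ≤ ind y x := by unfold ind; split_ifs <;> norm_num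
        have h1 : ind y x ≤ 1 := by unfold ind; split_ifs <;> norm_num
        rw [Real.enorm_eq_ofReal (mul_nonneg (Real.exp_pos _).le (mul_nonneg hx.le h0))]
        refine ENNReal.ofReal_le_ofReal ?_
        rw [mul_comm]
        refine mul_le_mul_of_nonneg_right ?_ (Real.exp_pos _).le
        exact mul_le_of_le_one_right hx.le h1
      rw [rho_big h1, mul_one]
      exact (setLIntegral_mono' measurableSet_Ioi hle).trans le_add_self

/-- Fubini with a bounded multiplier. -/
theorem fubini_mult (h : LevyNeg μ) {K : ℝ → ℝ → ℝ}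
    (hK : Integrable (Function.uncurry K) (μ.prod (volume.restrict (Ioi 0))))
    {φ : ℝ → ℝ} (hφ : Measurable φ) {C : ℝ} (hC : ∀ x, 0 < x → |φ x| ≤ C) :
    IntegrableOn (fun x => φ x * ∫ y, K y x ∂μ) (Ioi 0) ∧
    Integrable (fun y => ∫ x in Ioi (0:ℝ), φ x * K y x) μ ∧
    ∫ x in Ioi (0:ℝ), φ x * ∫ y, K y x ∂μ = ∫ y, (∫ x in Ioi (0:ℝ), φ x * K y x) ∂μ := by
  have := h.sFinite
  have h0 : ∀ᵐ p : ℝ × ℝ ∂(μ.prod (volume.restrict (Ioi 0))), 0 < p.2 := by
    have h1 : ∀ᵐ x ∂(volume.restrict (Ioi (0:ℝ))), (0:ℝ) < x :=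
      ae_restrict_mem measurableSet_Ioi
    exact Measure.quasiMeasurePreserving_snd.ae h1
  have h1 : Integrable (fun p : ℝ × ℝ => φ p.2 * K p.1 p.2)
      (μ.prod (volume.restrict (Ioi 0))) := by
    refine Integrable.mono' (hK.norm.const_mul C) ?_ ?_
    · exact (hφ.comp measurable_snd).aestronglyMeasurable.mul hK.aestronglyMeasurable
    · filter_upwards [h0] with p hp
      rw [norm_mul]
      exact mul_le_mul_of_nonneg_right (hC _ hp) (norm_nonneg _)
  have h2 := h1.integral_prod_right
  have h3 := h1.integral_prod_left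
  refine ⟨?_, h3, ?_⟩
  · refine h2.congr (Eventually.of_forall fun x => ?_)
    simp only
    rw [integral_const_mul]
  · have h4 := integral_integral_swap (f := fun y x => φ x * K y x) h1
    rw [h4]
    refine integral_congr_ae (Eventually.of_forall fun x => ?_)
    simp only
    rw [integral_const_mul]

end Pool.Agent.L7h75.SF
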