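import Mathlib
import Pool.Agent.L7h75.SF.Ker

/-!
# The functions `G` and `T` of a Lévy measure on the negative half-line
-/

set_option autoImplicit false

open MeasureTheory Set Filter Topology
open scoped ENNReal

namespace Pool.Agent.L7h75.SF

variable {μ : Measure ℝ}

theorem ind_int {y x x' : ℝ} (hx : x ≤ x') :
    ∫ t in Ioc x x', ind y t = min (-y) x' - min (-y) x := by
  have h1 : (fun t => ind y t) = (Iio (-y)).indicator fun _ => (1:ℝ) := by
    funext t
    unfold ind
    by_cases h : t < -y
    · rw [if_pos h, indicator_of_mem (show t ∈ Iio (-y) from h)]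
    · rw [if_neg h, indicator_of_notMem (show t ∉ Iio (-y) from h)]
  rw [h1, setIntegral_indicator measurableSet_Iio]
  rcases le_or_gt (-y) x with h | h
  · have : Ioc x x' ∩ Iio (-y) = ∅ := by
      ext t; simp only [mem_inter_iff, mem_Ioc, mem_Iio, mem_empty_iff_false, iff_false]
      intro h'; linarith [h'.1.1, h'.2]
    rw [this, min_eq_left h, min_eq_left (h.trans hx)]
    simp
  · rcases le_or_gt (-y) x' with h2 | h2
    · have : Ioc x x' ∩ Iio (-y) = Ioo x (-y) := by
        ext t; simp only [mem_inter_iff, mem_Ioc, mem_Iio, mem_Ioo]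
        constructor
        · intro h'; exact ⟨h'.1.1, h'.2⟩
        · intro h'; exact ⟨⟨h'.1, h'.2.le.trans h2⟩, h'.2⟩
      rw [this, min_eq_left h2, min_eq_right h.le]
      simp [h.le]
    · have : Ioc x x' ∩ Iio (-y) = Ioc x x' := by
        ext t; simp only [mem_inter_iff, mem_Ioc, mem_Iio, and_iff_left_iff_imp]
        intro h'; linarith [h'.2]
      rw [this, min_eq_right h2.le, min_eq_right h.le]
      simp [hx]

theorem ker_sub {y x x' : ℝ} : ker y x - ker y x' = min (-y) x' - min (-y) x := by
  unfold ker; ring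

/-- `∫_0^x (min s t + t 1_{t<s}) dt = x min (s, x)`. -/
theorem min_int {y x : ℝ} (hx : 0 ≤ x) :
    ∫ t in (0:ℝ)..x, (min (-y) t + t * ind y t) = x * min (-y) x := by
  have hc : ContinuousOn (fun t => t * min (-y) t) (Icc 0 x) := by fun_prop
  have hint : IntervalIntegrable (fun t => min (-y) t + t * ind y t) volume 0 x := by
    refine IntervalIntegrable.add
      ((by fun_prop : Continuous fun t => min (-y) t).intervalIntegrable _ _) ?_
    have h1 : IntervalIntegrable (fun t : ℝ => ‖t‖) volume 0 x :=
      (by fun_prop : Continuous fun t : ℝ => ‖t‖).intervalIntegrable 0 x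
    refine h1.mono_fun ?_ ?_
    · have : Measurable fun t : ℝ => t * ind y t :=
        measurable_id.mul (ind_measurable.comp (measurable_const.prodMk measurable_id))
      exact this.aestronglyMeasurable
    · refine Eventually.of_forall fun t => ?_
      simp only [norm_mul, norm_norm]
      refine mul_le_of_le_one_right (norm_nonneg _) ?_
      unfold ind; split_ifs <;> simp
  have := MeasureTheory.integral_eq_of_hasDerivAt_off_countable_of_le (fun t => t * min (-y) t)
    (fun t => min (-y) t + t * ind y t) hx (countable_singleton (-y)) hc ?_ hint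
  · rw [this]; simp
  · intro t ht
    have hne : t ≠ -y := by simpa using ht.2
    rcases lt_or_gt_of_ne hne with h | h
    · have e1 : min (-y) t + t * ind y t = 1 * t + t * 1 := by
        unfold ind; rw [if_pos h, min_eq_right h.le]; ring
      rw [e1]
      have h2 : HasDerivAt (fun t : ℝ => t * t) (1 * t + t * 1) t :=
        (hasDerivAt_id t).mul (hasDerivAt_id t)
      refine h2.congr_of_eventuallyEq ?_
      filter_upwards [eventually_lt_nhds h] with s hs
      rw [min_eq_right hs.le]
    · have e1 : min (-y) t + t * ind y t = 1 * (-y) := by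
        unfold ind; rw [if_neg (by linarith), min_eq_left h.le]; ring
      rw [e1]
      have h2 : HasDerivAt (fun t : ℝ => t * (-y)) (1 * (-y)) t :=
        (hasDerivAt_id t).mul_const (-y)
      refine h2.congr_of_eventuallyEq ?_
      filter_upwards [eventually_gt_nhds h] with s hs
      rw [min_eq_left hs.le]

theorem exp_min_int {β s : ℝ} (hβ : 0 < β) (hs : 0 < s) :
    IntegrableOn (fun x => Real.exp (-(β * x)) * min s x) (Ioi 0) ∧
    ∫ x in Ioi (0:ℝ), Real.exp (-(β * x)) * min s x = (1 - Real.exp (-(β * s))) / β ^ 2 := by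
  have hexp : IntegrableOn (fun x => Real.exp (-β * x)) (Ioi s) := exp_neg_integrableOn_Ioi s hβ
  have i1 : IntegrableOn (fun x => Real.exp (-(β * x)) * min s x) (Ioc 0 s) := by
    have : ContinuousOn (fun x => Real.exp (-(β * x)) * min s x) (Icc 0 s) := by fun_prop
    exact this.integrableOn_Icc.mono_set Ioc_subset_Icc_self
  have i2 : IntegrableOn (fun x => Real.exp (-(β * x)) * min s x) (Ioi s) := by
    refine (show IntegrableOn (fun x => Real.exp (-β * x) * s) (Ioi s) volume from
      hexp.mul_const s).congr_fun ?_ measurableSet_Ioi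
    intro x hx
    have : s < x := hx
    beta_reduce
    rw [min_eq_left this.le]; ring_nf
  have hun : Ioi (0:ℝ) = Ioc 0 s ∪ Ioi s := (Ioc_union_Ioi_eq_Ioi hs.le).symm
  refine ⟨by rw [hun]; exact i1.union i2, ?_⟩
  rw [hun, setIntegral_union (by
    rw [Set.disjoint_left]; intro x hx hx'
    exact absurd hx.2 (not_le.2 hx')) measurableSet_Ioi i1 i2]
  have e1 : ∫ x in Ioi s, Real.exp (-(β * x)) * min s x = Real.exp (-(β * s)) / β * s := by
    have : ∫ x in Ioi s, Real.exp (-(β * x)) * min s x = ∫ x in Ioi s, Real.exp (-β * x) * s := by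
      refine setIntegral_congr_fun measurableSet_Ioi fun x hx => ?_
      have : s < x := hx
      beta_reduce
      rw [min_eq_left this.le]; ring_nf
    rw [this, integral_mul_const, integral_exp_mul_Ioi (by linarith)]
    have : Real.exp (-β * s) = Real.exp (-(β * s)) := by ring_nf
    rw [this]; field_simp
  have e2 : ∫ x in Ioc 0 s, Real.exp (-(β * x)) * min s x =
      1 / β ^ 2 - (s / β + 1 / β ^ 2) * Real.exp (-(β * s)) := by
    have h1 : ∫ x in Ioc 0 s, Real.exp (-(β * x)) * min s x =
        ∫ x in (0:ℝ)..s, Real.exp (-(β * x)) * x := by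
      rw [intervalIntegral.integral_of_le hs.le]
      refine setIntegral_congr_fun measurableSet_Ioc fun x hx => ?_
      beta_reduce
      rw [min_eq_right hx.2]
    rw [h1]
    have h2 : ∀ x ∈ uIcc 0 s, HasDerivAt (fun x => -(x / β + 1 / β ^ 2) * Real.exp (-(β * x)))
        (Real.exp (-(β * x)) * x) x := by
      intro x _
      have d1 : HasDerivAt (fun x : ℝ => -(x / β + 1 / β ^ 2)) (-(1 / β)) x :=
        (((hasDerivAt_id x).div_const β).add_const _).neg
      have d2 : HasDerivAt (fun x : ℝ => Real.exp (-(β * x)))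
          (Real.exp (-(β * x)) * (-(β * 1))) x :=
        (((hasDerivAt_id x).const_mul β).neg).exp
      have := d1.mul d2
      convert! this using 1
      field_simp
      ring
    rw [intervalIntegral.integral_eq_sub_of_hasDerivAt h2
      ((by fun_prop : Continuous fun x => Real.exp (-(β * x)) * x).intervalIntegrable _ _)]
    simp
    ring
  rw [e1, e2]
  field_simp
  ring

theorem ker_laplace {β y : ℝ} (hβ : 0 < β) (hy : y < 0) :
    ∫ x in Ioi (0:ℝ), Real.exp (-(β * x)) * ker y x =
      (Real.exp (β * y) - 1 - (Ioi (-1 : ℝ)).indicator (fun y => β * y) y) / β ^ 2 := by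
  obtain ⟨i1, e1⟩ := exp_min_int hβ (show 0 < -y by linarith)
  have hexp : IntegrableOn (fun x => Real.exp (-β * x)) (Ioi 0) := exp_neg_integrableOn_Ioi 0 hβ
  have i2 : IntegrableOn (fun x => Real.exp (-(β * x)) *
      (Ioi (-1 : ℝ)).indicator (fun y => -y) y) (Ioi 0) := by
    refine (show IntegrableOn (fun x => Real.exp (-β * x) *
      ((Ioi (-1 : ℝ)).indicator (fun y => -y) y)) (Ioi 0) volume from
        hexp.mul_const _).congr_fun ?_
      measurableSet_Ioi
    intro x _
    beta_reduce
    ring_nf
  have e2 : ∫ x in Ioi (0:ℝ), Real.exp (-(β * x)) * (Ioi (-1 : ℝ)).indicator (fun y => -y) y =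
      (Ioi (-1 : ℝ)).indicator (fun y => -y) y / β := by
    rw [integral_mul_const]
    have : ∫ x in Ioi (0:ℝ), Real.exp (-(β * x)) = 1 / β := by
      have h := integral_exp_mul_Ioi (show -β < 0 by linarith) 0
      simp only [mul_zero, Real.exp_zero] at h
      rw [show (1:ℝ) / β = -1 / -β by field_simp, ← h]
      congr 1; funext x; ring_nf
    rw [this]; ring
  have e3 : (fun x => Real.exp (-(β * x)) * ker y x) = fun x =>
      Real.exp (-(β * x)) * (Ioi (-1 : ℝ)).indicator (fun y => -y) y -
        Real.exp (-(β * x)) * min (-y) x := by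
    funext x; unfold ker; ring
  rw [e3, integral_sub i2 i1, e1, e2]
  have e4 : Real.exp (-(β * -y)) = Real.exp (β * y) := by congr 1; ring
  rw [e4]
  by_cases h : -1 < y
  · rw [indicator_of_mem (show y ∈ Ioi (-1:ℝ) from h), indicator_of_mem
      (show y ∈ Ioi (-1:ℝ) from h)]
    field_simp; ring
  · rw [indicator_of_notMem (show y ∉ Ioi (-1:ℝ) from h), indicator_of_notMem
      (show y ∉ Ioi (-1:ℝ) from h)]
    field_simp; ring

/-- The function `G`. -/
noncomputable def GG (a : ℝ) (μ : Measure ℝ) (x : ℝ) : ℝ := -a + ∫ y, ker y x ∂μ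

/-- The tail. -/
noncomputable def TT (μ : Measure ℝ) (x : ℝ) : ℝ := (μ (Iio (-x))).toReal

theorem int_ind (t : ℝ) : ∫ y, ind y t ∂μ = TT μ t := by
  have h1 : (fun y => ind y t) = (Iio (-t)).indicator fun _ => (1:ℝ) := by
    funext y
    unfold ind
    by_cases h : t < -y
    · rw [if_pos h, indicator_of_mem (show y ∈ Iio (-t) by rw [mem_Iio]; linarith)]
    · rw [if_neg h, indicator_of_notMem (show y ∉ Iio (-t) by rw [mem_Iio]; intro h'; linarith)]
  rw [h1, integral_indicator measurableSet_Iio]
  simp [TT, Measure.real]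

theorem exp_cancel (β x : ℝ) : Real.exp (β * x) * Real.exp (-(β * x)) = 1 := by
  rw [← Real.exp_add]; simp

theorem GG_laplace (h : LevyNeg μ) (a : ℝ) {β : ℝ} (hβ : 0 < β) :
    IntegrableOn (fun x => Real.exp (-(β * x)) * GG a μ x) (Ioi 0) ∧
    β ^ 2 * ∫ x in Ioi (0:ℝ), Real.exp (-(β * x)) * GG a μ x =
      -(a * β) + ∫ x, (Real.exp (β * x) - 1 - (Ioi (-1 : ℝ)).indicator (fun y => β * y) x) ∂μ := by
  obtain ⟨f1, f2, f3⟩ := fubini_mult h (prod_ker h hβ) (φ := fun _ => 1) measurable_const
    (C := 1) (fun x _ => by simp)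
  simp only [one_mul, integral_const_mul] at f1 f2 f3
  have hexp : IntegrableOn (fun x => Real.exp (-β * x)) (Ioi 0) := exp_neg_integrableOn_Ioi 0 hβ
  have i1 : IntegrableOn (fun x => Real.exp (-(β * x)) * (-a)) (Ioi 0) := by
    refine (show IntegrableOn (fun x => Real.exp (-β * x) * (-a)) (Ioi 0) volume from
      hexp.mul_const (-a)).congr_fun ?_ measurableSet_Ioi
    intro x _
    beta_reduce
    ring_nf
  have e0 : (fun x => Real.exp (-(β * x)) * GG a μ x) = fun x => Real.exp (-(β * x)) * (-a) +
      Real.exp (-(β * x)) * ∫ y, ker y x ∂μ := by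
    funext x; unfold GG; ring
  rw [e0]
  refine ⟨i1.add f1, ?_⟩
  rw [integral_add i1 f1, f3, mul_add]
  congr 1
  · rw [integral_mul_const]
    have : ∫ x in Ioi (0:ℝ), Real.exp (-(β * x)) = 1 / β := by
      have h := integral_exp_mul_Ioi (show -β < 0 by linarith) 0
      simp only [mul_zero, Real.exp_zero] at h
      rw [show (1:ℝ) / β = -1 / -β by field_simp, ← h]
      congr 1; funext x; ring_nf
    rw [this]; field_simp
  · rw [← integral_const_mul]
    refine integral_congr_ae ?_
    filter_upwards [h.ae_neg] with y hy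
    beta_reduce
    rw [ker_laplace hβ hy]
    field_simp

theorem ker_integrable (h : LevyNeg μ) {x : ℝ} (hx : 0 < x) : Integrable (fun y => ker y x) μ := by
  have h1 : Integrable (fun y : ℝ => min 1 (y ^ 2)) μ := by
    refine ⟨(by fun_prop : Measurable fun y : ℝ => min 1 (y ^ 2)).aestronglyMeasurable, ?_⟩
    rw [HasFiniteIntegral]
    refine lt_of_le_of_lt (lintegral_mono fun y => ?_) h.fin
    rw [Real.enorm_eq_ofReal (le_min zero_le_one (sq_nonneg y))]
  refine Integrable.mono' (h1.const_mul (x + 1 / x)) ?_ ?_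
  · exact (ker_measurable.comp (measurable_id.prodMk measurable_const)).aestronglyMeasurable
  · filter_upwards [h.ae_neg] with y hy
    have hx1 : 0 < 1 / x := by positivity
    rcases lt_or_ge (-1) y with h2 | h2
    · rw [ker_of_lt h2, min_eq_right (show y ^ 2 ≤ 1 by nlinarith)]
      rcases le_or_gt (-y) x with h3 | h3
      · rw [min_eq_left h3, sub_self, norm_zero]; positivity
      · rw [min_eq_right h3.le, Real.norm_eq_abs, abs_of_pos (by linarith)]
        have h4 : -y ≤ 1 / x * y ^ 2 := by
          rw [div_mul_eq_mul_div, le_div_iff₀ hx]; nlinarith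
        have h5 : 0 ≤ x * y ^ 2 := by positivity
        nlinarith
    · rw [ker_of_le h2, min_eq_left (show (1:ℝ) ≤ y ^ 2 by nlinarith), norm_neg, Real.norm_eq_abs,
        abs_of_nonneg (le_min (by linarith) hx.le)]
      have := min_le_right (-y) x
      linarith

theorem GG_sub (h : LevyNeg μ) (a : ℝ) {x x' : ℝ} (hx : 0 < x) (hxx : x ≤ x') :
    IntegrableOn (TT μ) (Ioc x x') ∧ GG a μ x - GG a μ x' = ∫ t in x..x', TT μ t := by
  have hx' : 0 < x' := hx.trans_le hxx
  set φ : ℝ → ℝ := (Ioc x x').indicator fun t => Real.exp t / t with hφ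
  have hφm : Measurable φ := (by fun_prop : Measurable fun t : ℝ => Real.exp t / t).indicator
    measurableSet_Ioc
  obtain ⟨f1, f2, f3⟩ := fubini_mult h (prod_ind h one_pos) (φ := φ) hφm
    (C := Real.exp x' / x) (fun t ht => by
      simp only [hφ]
      by_cases h' : t ∈ Ioc x x'
      · rw [indicator_of_mem h', abs_of_pos (by positivity)]
        exact div_le_div₀ (Real.exp_pos _).le (Real.exp_le_exp.2 h'.2) hx h'.1.le
      · rw [indicator_of_notMem h', abs_zero]; positivity)
  have e1 : ∀ t, 0 < t → φ t * ∫ y, Real.exp (-(1 * t)) * (t * ind y t) ∂μ =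
      (Ioc x x').indicator (TT μ) t := by
    intro t ht
    rw [integral_const_mul, integral_const_mul, int_ind]
    simp only [hφ]
    by_cases h' : t ∈ Ioc x x'
    · rw [indicator_of_mem h', indicator_of_mem h']
      have := exp_cancel 1 t
      rw [one_mul] at this
      rw [one_mul, div_mul_eq_mul_div, ← mul_assoc, ← mul_assoc, this]
      field_simp
    · rw [indicator_of_notMem h', indicator_of_notMem h', zero_mul]
  have e2 : ∀ y t, 0 < t → φ t * (Real.exp (-(1 * t)) * (t * ind y t)) =
      (Ioc x x').indicator (fun t => ind y t) t := by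
    intro y t ht
    simp only [hφ]
    by_cases h' : t ∈ Ioc x x'
    · rw [indicator_of_mem h', indicator_of_mem h']
      have := exp_cancel 1 t
      rw [one_mul] at this
      rw [one_mul, div_mul_eq_mul_div, ← mul_assoc, ← mul_assoc, this]
      field_simp
    · rw [indicator_of_notMem h', indicator_of_notMem h', zero_mul]
  have hsub : Ioc x x' ⊆ Ioi 0 := fun t ht => hx.trans ht.1
  have g1 : IntegrableOn ((Ioc x x').indicator (TT μ)) (Ioi 0) :=
    f1.congr_fun (fun t ht => e1 t ht) measurableSet_Ioi
  have g2 : IntegrableOn (TT μ) (Ioc x x') := by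
    rw [IntegrableOn, integrable_indicator_iff measurableSet_Ioc] at g1
    rw [IntegrableOn, Measure.restrict_restrict measurableSet_Ioc] at g1
    rwa [inter_eq_left.2 hsub] at g1
  refine ⟨g2, ?_⟩
  have g3 : ∫ t in x..x', TT μ t = ∫ t in Ioi (0:ℝ), (Ioc x x').indicator (TT μ) t := by
    rw [intervalIntegral.integral_of_le hxx, setIntegral_indicator measurableSet_Ioc,
      inter_eq_right.2 hsub]
  rw [g3, ← setIntegral_congr_fun measurableSet_Ioi (fun t ht => e1 t ht), f3]
  have g4 : ∀ y, ∫ t in Ioi (0:ℝ), φ t * (Real.exp (-(1 * t)) * (t * ind y t)) =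
      ker y x - ker y x' := by
    intro y
    rw [setIntegral_congr_fun measurableSet_Ioi (fun t ht => e2 y t ht),
      setIntegral_indicator measurableSet_Ioc, inter_eq_right.2 hsub, ind_int hxx, ker_sub]
  simp_rw [g4]
  rw [integral_sub (ker_integrable h hx) (ker_integrable h hx')]
  unfold GG; ring

theorem BB_integrable (h : LevyNeg μ) (a : ℝ) {β : ℝ} (hβ : 0 < β) :
    IntegrableOn (fun x => Real.exp (-(β * x)) * (GG a μ x - x * TT μ x)) (Ioi 0) := by
  obtain ⟨f1, _, _⟩ := fubini_mult h (prod_ind h hβ) (φ := fun _ => 1) measurable_const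
    (C := 1) (fun x _ => by simp)
  have i1 := (GG_laplace h a hβ).1
  refine (i1.sub f1).congr_fun ?_ measurableSet_Ioi
  intro x _
  simp only [Pi.sub_apply, one_mul, integral_const_mul, int_ind]
  ring

theorem GG_mul (h : LevyNeg μ) (a : ℝ) {x : ℝ} (hx : 0 < x) :
    x * GG a μ x = ∫ t in (0:ℝ)..x, (GG a μ t - t * TT μ t) := by
  set φ : ℝ → ℝ := (Ioc 0 x).indicator fun t => Real.exp t with hφ
  have hφm : Measurable φ := (by fun_prop : Measurable fun t : ℝ => Real.exp t).indicator
    measurableSet_Ioc
  have hφb : ∀ t, 0 < t → |φ t| ≤ Real.exp x := by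
    intro t ht
    simp only [hφ]
    by_cases h' : t ∈ Ioc 0 x
    · rw [indicator_of_mem h', abs_of_pos (Real.exp_pos _)]
      exact Real.exp_le_exp.2 h'.2
    · rw [indicator_of_notMem h', abs_zero]; positivity
  obtain ⟨f1, f2, f3⟩ := fubini_mult h (prod_ind h one_pos) (φ := φ) hφm hφb
  obtain ⟨k1, k2, k3⟩ := fubini_mult h (prod_ker h one_pos) (φ := φ) hφm hφb
  have hexpc : ∀ t, Real.exp t * Real.exp (-(1 * t)) = 1 := by
    intro t; rw [← Real.exp_add]; simp
  have e1 : ∀ t, φ t * ∫ y, Real.exp (-(1 * t)) * (t * ind y t) ∂μ =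
      (Ioc 0 x).indicator (fun t => t * TT μ t) t := by
    intro t
    rw [integral_const_mul, integral_const_mul, int_ind]
    simp only [hφ]
    by_cases h' : t ∈ Ioc 0 x
    · rw [indicator_of_mem h', indicator_of_mem h', ← mul_assoc, hexpc, one_mul]
    · rw [indicator_of_notMem h', indicator_of_notMem h', zero_mul]
  have e2 : ∀ y t, φ t * (Real.exp (-(1 * t)) * (t * ind y t)) =
      (Ioc 0 x).indicator (fun t => t * ind y t) t := by
    intro y t
    simp only [hφ]
    by_cases h' : t ∈ Ioc 0 x
    · rw [indicator_of_mem h', indicator_of_mem h', ← mul_assoc, hexpc, one_mul]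
    · rw [indicator_of_notMem h', indicator_of_notMem h', zero_mul]
  have e3 : ∀ t, φ t * ∫ y, Real.exp (-(1 * t)) * ker y t ∂μ =
      (Ioc 0 x).indicator (fun t => ∫ y, ker y t ∂μ) t := by
    intro t
    rw [integral_const_mul]
    simp only [hφ]
    by_cases h' : t ∈ Ioc 0 x
    · rw [indicator_of_mem h', indicator_of_mem h', ← mul_assoc, hexpc, one_mul]
    · rw [indicator_of_notMem h', indicator_of_notMem h', zero_mul]
  have e4 : ∀ y t, φ t * (Real.exp (-(1 * t)) * ker y t) =
      (Ioc 0 x).indicator (fun t => ker y t) t := by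
    intro y t
    simp only [hφ]
    by_cases h' : t ∈ Ioc 0 x
    · rw [indicator_of_mem h', indicator_of_mem h', ← mul_assoc, hexpc, one_mul]
    · rw [indicator_of_notMem h', indicator_of_notMem h', zero_mul]
  have hsub : Ioc 0 x ⊆ Ioi (0:ℝ) := fun t ht => ht.1
  have conv : ∀ F : ℝ → ℝ, ∫ t in Ioi (0:ℝ), (Ioc 0 x).indicator F t = ∫ t in Ioc 0 x, F t := by
    intro F
    rw [setIntegral_indicator measurableSet_Ioc, inter_eq_right.2 hsub]
  have convI : ∀ F : ℝ → ℝ, IntegrableOn ((Ioc 0 x).indicator F) (Ioi 0) →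
      IntegrableOn F (Ioc 0 x) := by
    intro F hF
    rw [IntegrableOn, integrable_indicator_iff measurableSet_Ioc] at hF
    rw [IntegrableOn, Measure.restrict_restrict measurableSet_Ioc] at hF
    rwa [inter_eq_left.2 hsub] at hF
  simp only [e1, e2, e3, e4, conv] at f1 f2 f3 k1 k2 k3
  have I1 := convI _ f1
  have I2 := convI _ k1
  have I3 : IntegrableOn (fun _ : ℝ => -a) (Ioc 0 x) := integrableOn_const (by simp)
  have hR : ∫ t in (0:ℝ)..x, (GG a μ t - t * TT μ t) =
      -a * x + (∫ y, (∫ t in Ioc 0 x, ker y t) ∂μ) - ∫ y, (∫ t in Ioc 0 x, t * ind y t) ∂μ := by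
    rw [intervalIntegral.integral_of_le hx.le, ← k3, ← f3]
    have : (fun t => GG a μ t - t * TT μ t) = fun t => (-a + ∫ y, ker y t ∂μ) - t * TT μ t := by
      funext t; rfl
    have I32 : IntegrableOn (fun t => -a + ∫ y, ker y t ∂μ) (Ioc 0 x) := I3.add I2
    rw [this, integral_sub I32 I1, integral_add I3 I2]
    simp [hx.le]
    ring
  rw [hR, add_sub_assoc, ← integral_sub k2 f2]
  have hy : ∀ᵐ y ∂μ, (∫ t in Ioc 0 x, ker y t) - (∫ t in Ioc 0 x, t * ind y t) = x * ker y x := by
    filter_upwards [h.ae_neg] with y hy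
    have m1 := min_int (y := y) hx.le
    have j1 : IntegrableOn (fun t => min (-y) t) (Ioc 0 x) :=
      (by fun_prop : Continuous fun t => min (-y) t).integrableOn_Ioc
    have j2 : IntegrableOn (fun t => t * ind y t) (Ioc 0 x) := by
      have h1 : IntegrableOn (fun t : ℝ => ‖t‖) (Ioc 0 x) :=
        (by fun_prop : Continuous fun t : ℝ => ‖t‖).integrableOn_Ioc
      refine Integrable.mono' h1 ?_ ?_
      · have : Measurable fun t : ℝ => t * ind y t :=
          measurable_id.mul (ind_measurable.comp (measurable_const.prodMk measurable_id))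
        exact this.aestronglyMeasurable
      · refine Eventually.of_forall fun t => ?_
        simp only [norm_mul]
        refine mul_le_of_le_one_right (norm_nonneg _) ?_
        unfold ind; split_ifs <;> simp
    have j3 : IntegrableOn (fun _ : ℝ => (Ioi (-1 : ℝ)).indicator (fun y => -y) y) (Ioc 0 x) :=
      integrableOn_const (by simp)
    rw [intervalIntegral.integral_of_le hx.le, integral_add j1 j2] at m1
    have m2 : ∫ t in Ioc 0 x, ker y t = (Ioi (-1 : ℝ)).indicator (fun y => -y) y * x -
        ∫ t in Ioc 0 x, min (-y) t := by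
      unfold ker
      rw [integral_sub j3 j1]
      simp [hx.le]
      ring
    rw [m2]
    unfold ker
    linear_combination -m1
  rw [integral_congr_ae hy, integral_const_mul]
  unfold GG; ring

theorem TT_antitone (h : LevyNeg μ) {x x' : ℝ} (hx : 0 < x) (hxx : x ≤ x') :
    TT μ x' ≤ TT μ x := by
  unfold TT
  refine ENNReal.toReal_mono ?_ (measure_mono (Iio_subset_Iio (by linarith)))
  have h1 : ENNReal.ofReal (min 1 (x ^ 2)) * μ (Iio (-x)) ≤
      ∫⁻ y, ENNReal.ofReal (min 1 (y ^ 2)) ∂μ := by
    refine le_trans ?_ (setLIntegral_le_lintegral (Iio (-x)) _)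
    rw [← setLIntegral_const]
    refine setLIntegral_mono' measurableSet_Iio fun y hy => ?_
    refine ENNReal.ofReal_le_ofReal (min_le_min_left _ ?_)
    have : y < -x := hy
    nlinarith
  intro htop
  rw [htop, ENNReal.mul_top (by
    rw [Ne, ENNReal.ofReal_eq_zero, not_le]; exact lt_min one_pos (by positivity))] at h1
  exact absurd h.fin (not_lt.2 h1)

theorem GG_continuousOn (h : LevyNeg μ) (a : ℝ) : ContinuousOn (GG a μ) (Ioi 0) := by
  intro x hx
  have hx0 : (0:ℝ) < x := hx
  have h1 : ContinuousOn (fun t => ∫ s in (x/2)..t, TT μ s) (uIcc (x / 2) (x + 1)) := by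
    refine intervalIntegral.continuousOn_primitive_interval' ?_ left_mem_uIcc
    rw [intervalIntegrable_iff_integrableOn_Ioc_of_le (by linarith)]
    exact (GG_sub h a (by linarith) (by linarith)).1
  have h2 : ContinuousAt (fun t => GG a μ (x / 2) - ∫ s in (x/2)..t, TT μ s) x := by
    refine ContinuousAt.sub continuousAt_const (h1.continuousAt ?_)
    rw [uIcc_of_le (by linarith)]
    exact Icc_mem_nhds (by linarith) (by linarith)
  refine (h2.congr ?_).continuousWithinAt
  filter_upwards [eventually_gt_nhds (show x / 2 < x by linarith)] with t ht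
  rw [← (GG_sub h a (by linarith) ht.le).2]; ring

/-- Where `G` is differentiable its derivative is `-T`. -/
theorem GG_deriv (h : LevyNeg μ) (a : ℝ) {x : ℝ} (hx : 0 < x)
    (hd : DifferentiableAt ℝ (GG a μ) x) : deriv (GG a μ) x = - TT μ x := by
  have hmin : IsLocalMin (fun t => GG a μ t + TT μ x * t) x := by
    filter_upwards [eventually_gt_nhds hx] with t ht
    rcases le_total x t with h1 | h1
    · have h2 := (GG_sub h a hx h1).2
      have h3 : ∫ s in x..t, TT μ s ≤ ∫ _s in x..t, TT μ x := by
        refine intervalIntegral.integral_mono_on h1 ?_ (by simp) ?_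
        · rw [intervalIntegrable_iff_integrableOn_Ioc_of_le h1]
          exact (GG_sub h a hx h1).1
        · intro s hs
          exact TT_antitone h hx hs.1
      rw [intervalIntegral.integral_const, smul_eq_mul] at h3
      linarith
    · have h2 := (GG_sub h a ht h1).2
      have h3 : ∫ _s in t..x, TT μ x ≤ ∫ s in t..x, TT μ s := by
        refine intervalIntegral.integral_mono_on h1 (by simp) ?_ ?_
        · rw [intervalIntegrable_iff_integrableOn_Ioc_of_le h1]
          exact (GG_sub h a ht h1).1
        · intro s hs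
          exact TT_antitone h (ht.trans_le hs.1) hs.2
      rw [intervalIntegral.integral_const, smul_eq_mul] at h3
      linarith
  have hd2 : HasDerivAt (fun t => GG a μ t + TT μ x * t) (deriv (GG a μ) x + TT μ x * 1) x :=
    hd.hasDerivAt.add ((hasDerivAt_id x).const_mul _)
  have := hmin.hasDerivAt_eq_zero hd2
  linarith

theorem GG_contDiffOn_iff (h : LevyNeg μ) (a : ℝ) (k : ℕ) :
    ContDiffOn ℝ ((k + 1 : ℕ) : ℕ∞) (GG a μ) (Ioi 0) ↔
      ContDiffOn ℝ (k : ℕ∞) (TT μ) (Ioi 0) := by
  have e : (((k + 1 : ℕ) : ℕ∞) : WithTop ℕ∞) = ((k : ℕ∞) : WithTop ℕ∞) + 1 := by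
    push_cast; rfl
  rw [e, contDiffOn_succ_iff_deriv_of_isOpen isOpen_Ioi]
  constructor
  · rintro ⟨hd, _, hc⟩
    refine hc.neg.congr fun x hx => ?_
    rw [GG_deriv h a hx ((hd x hx).differentiableAt (Ioi_mem_nhds hx)), neg_neg]
  · intro hT
    have hder : ∀ x, 0 < x → HasDerivAt (GG a μ) (-TT μ x) x := by
      intro x hx
      have h1 : HasDerivAt (fun t => ∫ s in (x/2)..t, TT μ s) (TT μ x) x := by
        refine intervalIntegral.integral_hasDerivAt_right ?_ ?_
          (hT.continuousOn.continuousAt (Ioi_mem_nhds hx))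
        · rw [intervalIntegrable_iff_integrableOn_Ioc_of_le (by linarith)]
          exact (GG_sub h a (by linarith) (by linarith)).1
        · exact ContinuousOn.stronglyMeasurableAtFilter isOpen_Ioi hT.continuousOn x hx
      have h2 : HasDerivAt (fun t => GG a μ (x / 2) - ∫ s in (x/2)..t, TT μ s) (-TT μ x) x := by
        simpa using h1.const_sub (GG a μ (x / 2))
      refine h2.congr_of_eventuallyEq ?_
      filter_upwards [eventually_gt_nhds (show x / 2 < x by linarith)] with t ht
      rw [← (GG_sub h a (by linarith) ht.le).2]; ring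
    refine ⟨fun x hx => (hder x hx).differentiableAt.differentiableWithinAt, ?_, ?_⟩
    · intro h'; exact absurd h' (by simp)
    · exact hT.neg.congr fun x hx => (hder x hx).deriv

end Pool.Agent.L7h75.SF
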