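import Mathlib

/-!
# Uniqueness for the one-sided Laplace transform of an integrable function
-/

set_option autoImplicit false

open MeasureTheory Set Filter Topology

namespace Pool.Agent.L7h75.SF

theorem laplace_poly {F : ℝ → ℝ} (hF : IntegrableOn F (Ioi 0))
    (h : ∀ n : ℕ, ∫ x in Ioi (0:ℝ), Real.exp (-((n:ℝ) * x)) * F x = 0) (p : Polynomial ℝ) :
    IntegrableOn (fun x => p.eval (Real.exp (-x)) * F x) (Ioi 0) ∧
    ∫ x in Ioi (0:ℝ), p.eval (Real.exp (-x)) * F x = 0 := by
  induction p using Polynomial.induction_on' with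
  | add p q hp hq =>
    have e : (fun x => (p + q).eval (Real.exp (-x)) * F x)
        = fun x => p.eval (Real.exp (-x)) * F x + q.eval (Real.exp (-x)) * F x := by
      funext x; rw [Polynomial.eval_add]; ring
    rw [e]
    refine ⟨hp.1.add hq.1, ?_⟩
    rw [integral_add hp.1 hq.1, hp.2, hq.2, add_zero]
  | monomial n a =>
    have e : (fun x => (Polynomial.monomial n a).eval (Real.exp (-x)) * F x)
        = fun x => a * (Real.exp (-((n:ℝ) * x)) * F x) := by
      funext x
      rw [Polynomial.eval_monomial, ← Real.exp_nat_mul]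
      have : (n:ℝ) * -x = -((n:ℝ) * x) := by ring
      rw [this]; ring
    have hi : IntegrableOn (fun x => Real.exp (-((n:ℝ) * x)) * F x) (Ioi 0) := by
      refine Integrable.mono' hF.norm ?_ ?_
      · exact (by fun_prop : Continuous fun x => Real.exp (-((n:ℝ) * x))).aestronglyMeasurable.mul
          hF.aestronglyMeasurable
      · refine (ae_restrict_iff' measurableSet_Ioi).2 (Eventually.of_forall fun x hx => ?_)
        rw [norm_mul, Real.norm_eq_abs, abs_of_pos (Real.exp_pos _)]
        have : Real.exp (-((n:ℝ) * x)) ≤ 1 := by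
          rw [Real.exp_le_one_iff]
          have : 0 ≤ (n:ℝ) * x := mul_nonneg (Nat.cast_nonneg _) (le_of_lt hx)
          linarith
        exact mul_le_of_le_one_left (norm_nonneg _) this
    rw [e]
    refine ⟨hi.const_mul a, ?_⟩
    rw [integral_const_mul, h n, mul_zero]

theorem laplace_unique {F : ℝ → ℝ} (hF : IntegrableOn F (Ioi 0))
    (h : ∀ n : ℕ, ∫ x in Ioi (0:ℝ), Real.exp (-((n:ℝ) * x)) * F x = 0) :
    ∀ᵐ x : ℝ, x ∈ Ioi (0:ℝ) → F x = 0 := by
  refine isOpen_Ioi.ae_eq_zero_of_integral_contDiff_smul_eq_zero hF.locallyIntegrableOn ?_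
  intro ψ hψ hψc hψs
  have h0 : ψ 0 = 0 := by
    by_contra hne
    have : (0:ℝ) ∈ Ioi (0:ℝ) := hψs (subset_tsupport _ hne)
    exact lt_irrefl (0:ℝ) this
  have hzero : ∀ x ≤ (0:ℝ), ψ x = 0 := by
    intro x hx
    by_contra hne
    have : x ∈ Ioi (0:ℝ) := hψs (subset_tsupport _ hne)
    exact absurd this (not_lt.2 hx)
  -- the function φ u = ψ (-log u) is continuous
  set φ : ℝ → ℝ := fun u => ψ (-Real.log u) with hφ
  obtain ⟨R, hR⟩ := hψc.isCompact.isBounded.subset_closedBall (0:ℝ)
  have hbig : ∀ x, R < x → ψ x = 0 := by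
    intro x hx
    by_contra hne
    have h1 := hR (subset_tsupport _ hne)
    rw [Metric.mem_closedBall, Real.dist_eq, sub_zero] at h1
    have := le_abs_self x
    linarith
  have hcont : Continuous φ := by
    rw [continuous_iff_continuousAt]
    intro u
    by_cases hu : u = 0
    · subst hu
      have h1 : Tendsto (fun u : ℝ => -Real.log u) (𝓝[≠] 0) atTop :=
        tendsto_neg_atBot_atTop.comp Real.tendsto_log_nhdsNE_zero
      have h2 : ∀ᶠ u in 𝓝[≠] (0:ℝ), φ u = 0 := by
        filter_upwards [h1.eventually (eventually_gt_atTop R)] with u hu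
        exact hbig _ hu
      have h3 : φ 0 = 0 := by simp [hφ, h0]
      have h4 : ∀ᶠ u in 𝓝 (0:ℝ), φ u = 0 := by
        rw [eventually_nhdsWithin_iff] at h2
        filter_upwards [h2] with u hu
        by_cases hu0 : u = 0
        · rw [hu0, h3]
        · exact hu hu0
      have : φ =ᶠ[𝓝 0] fun _ => (0:ℝ) := h4
      exact (continuousAt_const).congr this.symm
    · exact hψ.continuous.continuousAt.comp (Real.continuousAt_log hu).neg
  have hint : IntegrableOn (fun x => ψ x * F x) (Ioi 0) := by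
    obtain ⟨M, hM⟩ := hψc.exists_bound_of_continuous hψ.continuous
    refine Integrable.mono' (hF.norm.const_mul M) ?_ ?_
    · exact hψ.continuous.aestronglyMeasurable.mul hF.aestronglyMeasurable
    · refine Eventually.of_forall fun x => ?_
      rw [norm_mul]
      exact mul_le_mul_of_nonneg_right (hM x) (norm_nonneg _)
  have hred : ∫ x, ψ x • F x = ∫ x in Ioi (0:ℝ), ψ x * F x := by
    rw [← integral_indicator measurableSet_Ioi]
    refine integral_congr_ae (Eventually.of_forall fun x => ?_)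
    simp only [smul_eq_mul, indicator]
    split_ifs with hx
    · rfl
    · rw [hzero x (not_lt.1 hx), zero_mul]
  rw [hred]
  by_contra hne
  set I := ∫ x in Ioi (0:ℝ), ψ x * F x with hI
  set A := ∫ x in Ioi (0:ℝ), ‖F x‖ with hA
  have hA0 : 0 ≤ A := integral_nonneg fun _ => norm_nonneg _
  have hIpos : 0 < |I| := abs_pos.2 hne
  set ε := |I| / (2 * (A + 1)) with hε
  have hεpos : 0 < ε := by positivity
  obtain ⟨p, hp⟩ := exists_polynomial_near_of_continuousOn 0 1 φ hcont.continuousOn ε hεpos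
  obtain ⟨hp1, hp2⟩ := laplace_poly hF h p
  have e1 : I = ∫ x in Ioi (0:ℝ), (ψ x * F x - p.eval (Real.exp (-x)) * F x) := by
    rw [integral_sub hint hp1, hp2, sub_zero]
  have e2 : |I| ≤ ε * A := by
    rw [e1, hA, ← integral_const_mul, ← Real.norm_eq_abs]
    refine (norm_integral_le_of_norm_le (hF.norm.const_mul ε) ?_)
    refine (ae_restrict_iff' measurableSet_Ioi).2 (Eventually.of_forall fun x hx => ?_)
    rw [← sub_mul, norm_mul]
    refine mul_le_mul_of_nonneg_right ?_ (norm_nonneg _)
    have h5 := hp (Real.exp (-x)) ⟨(Real.exp_pos _).le, by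
      rw [Real.exp_le_one_iff]; have : (0:ℝ) < x := hx; linarith⟩
    have h6 : φ (Real.exp (-x)) = ψ x := by simp [hφ, Real.log_exp]
    rw [h6] at h5
    rw [Real.norm_eq_abs, abs_sub_comm]
    exact h5.le
  have e3 : ε * A ≤ |I| / 2 := by
    rw [hε, div_mul_eq_mul_div, div_le_div_iff₀ (by positivity) (by norm_num)]
    nlinarith
  linarith

/-- Two functions that are continuous on `(0,∞)` and have the same Laplace transform near
infinity agree on `(0,∞)`. -/
theorem laplace_unique_cont {F₁ F₂ : ℝ → ℝ} (h1 : ContinuousOn F₁ (Ioi 0))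
    (h2 : ContinuousOn F₂ (Ioi 0)) {β₀ : ℝ}
    (i1 : ∀ β, β₀ < β → IntegrableOn (fun x => Real.exp (-(β * x)) * F₁ x) (Ioi 0))
    (i2 : ∀ β, β₀ < β → IntegrableOn (fun x => Real.exp (-(β * x)) * F₂ x) (Ioi 0))
    (h : ∀ β, β₀ < β → ∫ x in Ioi (0:ℝ), Real.exp (-(β * x)) * F₁ x
      = ∫ x in Ioi (0:ℝ), Real.exp (-(β * x)) * F₂ x) :
    EqOn F₁ F₂ (Ioi 0) := by
  set β := β₀ + 1 with hβ
  set F : ℝ → ℝ := fun x => Real.exp (-(β * x)) * (F₁ x - F₂ x) with hFdef
  have hF : IntegrableOn F (Ioi 0) := by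
    have := (i1 β (by linarith)).sub (i2 β (by linarith))
    refine this.congr (Eventually.of_forall fun x => ?_)
    simp only [hFdef, Pi.sub_apply]; ring
  have hz : ∀ n : ℕ, ∫ x in Ioi (0:ℝ), Real.exp (-((n:ℝ) * x)) * F x = 0 := by
    intro n
    have hn : β₀ < β + n := by
      have : (0:ℝ) ≤ n := Nat.cast_nonneg n
      linarith
    have e : (fun x => Real.exp (-((n:ℝ) * x)) * F x) = fun x =>
        Real.exp (-((β + n) * x)) * F₁ x - Real.exp (-((β + n) * x)) * F₂ x := by
      funext x
      simp only [hFdef]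
      rw [← mul_sub, ← mul_assoc, ← Real.exp_add]
      congr 2; ring
    rw [e, integral_sub (i1 _ hn) (i2 _ hn), h _ hn, sub_self]
  have hae := laplace_unique hF hz
  have hae2 : F₁ =ᵐ[volume.restrict (Ioi 0)] F₂ := by
    refine (ae_restrict_iff' measurableSet_Ioi).2 ?_
    filter_upwards [hae] with x hx hx0
    have := hx hx0
    simp only [hFdef, mul_eq_zero, Real.exp_ne_zero, false_or] at this
    linarith
  exact Measure.eqOn_open_of_ae_eq hae2 isOpen_Ioi h1 h2

end Pool.Agent.L7h75.SF
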