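import Mathlib
import Pool.Agent.L7h75.SF.Conv

/-!
# The convolution of two integrable functions on the half-line that are `C^n` on `(0,∞)`
is `C^n` on `(0,∞)`; primitives
-/

set_option autoImplicit false

open MeasureTheory Set Filter Topology
open scoped Convolution ENNReal

namespace Pool.Agent.L7h75.SF

/-- low cutoff: `0` for `t ≤ a/2`, `1` for `a ≤ t`. -/
noncomputable def lo (a : ℝ) (t : ℝ) : ℝ := Real.smoothTransition ((t - a / 2) / (a / 2))

/-- high cutoff: `1` for `t ≤ M`, `0` for `M + 1 ≤ t`. -/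
noncomputable def hi (M : ℝ) (t : ℝ) : ℝ := Real.smoothTransition (M + 1 - t)

theorem lo_zero {a t : ℝ} (ha : 0 < a) (h : t ≤ a / 2) : lo a t = 0 :=
  Real.smoothTransition.zero_of_nonpos (div_nonpos_of_nonpos_of_nonneg (by linarith) (by linarith))

theorem lo_one {a t : ℝ} (ha : 0 < a) (h : a ≤ t) : lo a t = 1 :=
  Real.smoothTransition.one_of_one_le (by rw [le_div_iff₀ (by linarith)]; linarith)

theorem hi_zero {M t : ℝ} (h : M + 1 ≤ t) : hi M t = 0 :=
  Real.smoothTransition.zero_of_nonpos (by linarith)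

theorem hi_one {M t : ℝ} (h : t ≤ M) : hi M t = 1 :=
  Real.smoothTransition.one_of_one_le (by linarith)

theorem lo_contDiff (a : ℝ) (n : ℕ∞) : ContDiff ℝ n (lo a) :=
  Real.smoothTransition.contDiff.comp ((contDiff_id.sub contDiff_const).div_const _)

theorem hi_contDiff (M : ℝ) (n : ℕ∞) : ContDiff ℝ n (hi M) :=
  Real.smoothTransition.contDiff.comp (contDiff_const.sub contDiff_id)

/-- near part -/
noncomputable def nr (a : ℝ) (F : ℝ → ℝ) : ℝ → ℝ := fun t => (1 - lo a t) * F t

/-- far part -/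
noncomputable def fr (a M : ℝ) (F : ℝ → ℝ) : ℝ → ℝ := fun t => lo a t * hi M t * F t

theorem nr_integrable (a : ℝ) {F : ℝ → ℝ} (hF : Integrable F) : Integrable (nr a F) := by
  refine Integrable.mono' hF.norm ?_ ?_
  · exact ((continuous_const.sub (lo_contDiff a 0).continuous).aestronglyMeasurable).mul
      hF.aestronglyMeasurable
  · refine Eventually.of_forall fun t => ?_
    simp only [nr]
    rw [norm_mul]
    have h0 : 0 ≤ lo a t := Real.smoothTransition.nonneg _
    have h1 : lo a t ≤ 1 := Real.smoothTransition.le_one _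
    rw [Real.norm_eq_abs, abs_of_nonneg (by linarith)]
    exact mul_le_of_le_one_left (norm_nonneg _) (by linarith)

theorem fr_integrable (a M : ℝ) {F : ℝ → ℝ} (hF : Integrable F) : Integrable (fr a M F) := by
  refine Integrable.mono' hF.norm ?_ ?_
  · exact (((lo_contDiff a 0).continuous.mul (hi_contDiff M 0).continuous).aestronglyMeasurable).mul
      hF.aestronglyMeasurable
  · refine Eventually.of_forall fun t => ?_
    simp only [fr]
    rw [norm_mul]
    have h0 : 0 ≤ lo a t := Real.smoothTransition.nonneg _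
    have h1 : lo a t ≤ 1 := Real.smoothTransition.le_one _
    have h2 : 0 ≤ hi M t := Real.smoothTransition.nonneg _
    have h3 : hi M t ≤ 1 := Real.smoothTransition.le_one _
    rw [Real.norm_eq_abs, abs_of_nonneg (mul_nonneg h0 h2)]
    exact mul_le_of_le_one_left (norm_nonneg _) (mul_le_one₀ h1 h2 h3)

theorem fr_contDiff {a M : ℝ} (ha : 0 < a) {n : ℕ∞} {F : ℝ → ℝ}
    (cF : ContDiffOn ℝ n F (Ioi 0)) : ContDiff ℝ n (fr a M F) := by
  rw [contDiff_iff_contDiffAt]
  intro t
  rcases lt_or_ge t (a / 2) with h | h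
  · have : fr a M F =ᶠ[𝓝 t] fun _ => (0:ℝ) := by
      filter_upwards [eventually_lt_nhds h] with s hs
      simp only [fr]
      rw [lo_zero ha hs.le, zero_mul, zero_mul]
    exact (contDiffAt_const (c := (0:ℝ))).congr_of_eventuallyEq this
  · have ht : 0 < t := by linarith
    exact ((lo_contDiff a n).contDiffAt.mul (hi_contDiff M n).contDiffAt).mul
      (cF.contDiffAt (Ioi_mem_nhds ht))

theorem fr_compact {a M : ℝ} (ha : 0 < a) (F : ℝ → ℝ) : HasCompactSupport (fr a M F) := by
  refine HasCompactSupport.intro (isCompact_Icc (a := a / 2) (b := M + 1)) fun t ht => ?_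
  simp only [fr]
  by_cases h : t < a / 2
  · rw [lo_zero ha h.le, zero_mul, zero_mul]
  · have : M + 1 ≤ t := by
      by_contra h'
      exact ht ⟨not_lt.1 h, (not_le.1 h').le⟩
    rw [hi_zero this, mul_zero, zero_mul]

theorem contDiffOn_cv {F G : ℝ → ℝ} (hF : Integrable F) (hG : Integrable G)
    (F0 : ∀ x ≤ 0, F x = 0) (G0 : ∀ x ≤ 0, G x = 0) {n : ℕ∞}
    (cF : ContDiffOn ℝ n F (Ioi 0)) (cG : ContDiffOn ℝ n G (Ioi 0)) :
    ContDiffOn ℝ n (cv F G) (Ioi 0) := by
  intro x₀ hx₀
  have hx0 : (0:ℝ) < x₀ := hx₀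
  refine ContDiffAt.contDiffWithinAt ?_
  set a := x₀ / 4 with ha
  have hapos : 0 < a := by positivity
  set M := 2 * x₀ with hM
  have key : ∀ x ∈ Ioo (x₀ / 2) (2 * x₀), cv F G x
      = cv (nr a F) (fr a M G) x + cv (fr a M F) (nr a G) x + cv (fr a M F) (fr a M G) x := by
    intro x hx
    have i1 : Integrable (fun t => nr a F t * fr a M G (x - t)) :=
      (fr_compact hapos G).convolutionExists_right (ContinuousLinearMap.mul ℝ ℝ)
        (nr_integrable a hF).locallyIntegrable (fr_contDiff hapos cG).continuous x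
    have i2 : Integrable (fun t => fr a M F t * nr a G (x - t)) :=
      (fr_compact hapos F).convolutionExists_left (ContinuousLinearMap.mul ℝ ℝ)
        (fr_contDiff hapos cF).continuous (nr_integrable a hG).locallyIntegrable x
    have i3 : Integrable (fun t => fr a M F t * fr a M G (x - t)) :=
      (fr_compact hapos G).convolutionExists_right (ContinuousLinearMap.mul ℝ ℝ)
        (fr_integrable a M hF).locallyIntegrable (fr_contDiff hapos cG).continuous x
    simp only [cv_apply]
    have i12 : Integrable (fun t => nr a F t * fr a M G (x - t) + fr a M F t * nr a G (x - t)) :=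
      i1.add i2
    rw [← integral_add i1 i2, ← integral_add i12 i3]
    refine integral_congr_ae (Eventually.of_forall fun t => ?_)
    simp only []
    by_cases h1 : t ≤ 0
    · simp only [nr, fr, F0 t h1]; ring
    by_cases h2 : x - t ≤ 0
    · simp only [nr, fr, G0 _ h2]; ring
    have e1 : hi M t = 1 := hi_one (by rw [hM]; linarith [hx.2])
    have e2 : hi M (x - t) = 1 := hi_one (by rw [hM]; linarith [hx.2])
    by_cases h3 : a ≤ t
    · simp only [nr, fr, e1, e2, lo_one hapos h3]; ring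
    · have h4 : a ≤ x - t := by
        rw [ha] at h3 ⊢; linarith [hx.1]
      simp only [nr, fr, e1, e2, lo_one hapos h4]; ring
  have c1 : ContDiff ℝ n (cv (nr a F) (fr a M G)) :=
    (fr_compact hapos G).contDiff_convolution_right (ContinuousLinearMap.mul ℝ ℝ)
      (nr_integrable a hF).locallyIntegrable (fr_contDiff hapos cG)
  have c2 : ContDiff ℝ n (cv (fr a M F) (nr a G)) :=
    (fr_compact hapos F).contDiff_convolution_left (ContinuousLinearMap.mul ℝ ℝ)
      (fr_contDiff hapos cF) (nr_integrable a hG).locallyIntegrable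
  have c3 : ContDiff ℝ n (cv (fr a M F) (fr a M G)) :=
    (fr_compact hapos G).contDiff_convolution_right (ContinuousLinearMap.mul ℝ ℝ)
      (fr_integrable a M hF).locallyIntegrable (fr_contDiff hapos cG)
  refine (((c1.add c2).add c3).contDiffAt (x := x₀)).congr_of_eventuallyEq ?_
  filter_upwards [Ioo_mem_nhds (a := x₀ / 2) (b := 2 * x₀) (by linarith) (by linarith)] with x hx
  exact key x hx

theorem cv_zero_of_nonpos {F G : ℝ → ℝ} (F0 : ∀ x ≤ 0, F x = 0) (G0 : ∀ x ≤ 0, G x = 0) :
    ∀ x ≤ 0, cv F G x = 0 := by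
  intro x hx
  rw [cv_apply]
  have : (fun t => F t * G (x - t)) = fun _ => (0:ℝ) := by
    funext t
    by_cases h1 : t ≤ 0
    · rw [F0 t h1, zero_mul]
    · rw [G0 (x - t) (by linarith), mul_zero]
  rw [this, integral_zero]

/-! ### Primitives -/

/-- Local integrability on `[0, ∞)`. -/
def LI (f : ℝ → ℝ) : Prop := ∀ x : ℝ, 0 < x → IntervalIntegrable f volume 0 x

theorem prim_continuousOn {f : ℝ → ℝ} (hf : LI f) :
    ContinuousOn (fun x => ∫ t in (0:ℝ)..x, f t) (Ioi 0) := by
  intro x hx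
  have hx0 : (0:ℝ) < x := hx
  have h1 : ContinuousOn (fun x => ∫ t in (0:ℝ)..x, f t) (Set.uIcc 0 (x + 1)) :=
    intervalIntegral.continuousOn_primitive_interval'
      (hf (x + 1) (by linarith)) left_mem_uIcc
  refine (h1.continuousAt ?_).continuousWithinAt
  rw [uIcc_of_le (by linarith)]
  exact Icc_mem_nhds hx0 (by linarith)

theorem prim_hasDerivAt {f : ℝ → ℝ} (hf : LI f) (cf : ContinuousOn f (Ioi 0)) {x : ℝ}
    (hx : 0 < x) : HasDerivAt (fun x => ∫ t in (0:ℝ)..x, f t) (f x) x := by
  refine intervalIntegral.integral_hasDerivAt_right (hf x hx) ?_ (cf.continuousAt (Ioi_mem_nhds hx))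
  exact ContinuousOn.stronglyMeasurableAtFilter isOpen_Ioi cf x hx

theorem contDiffOn_prim_iff {f : ℝ → ℝ} (hf : LI f) (cf : ContinuousOn f (Ioi 0)) (n : ℕ) :
    ContDiffOn ℝ ((n + 1 : ℕ) : ℕ∞) (fun x => ∫ t in (0:ℝ)..x, f t) (Ioi 0) ↔
      ContDiffOn ℝ (n : ℕ∞) f (Ioi 0) := by
  have hd : ∀ x ∈ Ioi (0:ℝ), deriv (fun x => ∫ t in (0:ℝ)..x, f t) x = f x := fun x hx =>
    (prim_hasDerivAt hf cf hx).deriv
  have e : (((n + 1 : ℕ) : ℕ∞) : WithTop ℕ∞) = ((n : ℕ∞) : WithTop ℕ∞) + 1 := by
    push_cast; rfl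
  rw [e, contDiffOn_succ_iff_deriv_of_isOpen isOpen_Ioi]
  constructor
  · rintro ⟨_, _, h⟩
    exact h.congr fun x hx => (hd x hx).symm
  · intro h
    refine ⟨fun x hx => (prim_hasDerivAt hf cf hx).differentiableAt.differentiableWithinAt, ?_,
      h.congr hd⟩
    intro h'
    exact absurd h' (by simp)

end Pool.Agent.L7h75.SF
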