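import Mathlib
import Pool.Agent.L7h75.SF.Conv
import Pool.Agent.L7h75.SF.Smooth

/-!
# Resolvents of kernels on the half-line: the regularity argument

If `h + g + g * h = 0` then multiplication by `x` is a derivation of the convolution algebra, so
`x h = - (x g) * (δ + h) * (δ + h)`.
-/

set_option autoImplicit false

open MeasureTheory Set Filter Topology
open scoped Convolution ENNReal

namespace Pool.Agent.L7h75.SF

/-- the constant `1` on `(0,∞)` -/
noncomputable def one : ℝ → ℝ := indicator (Ioi 0) fun _ => (1:ℝ)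

theorem one_zero : ∀ x ≤ (0:ℝ), one x = 0 := fun x hx =>
  indicator_of_notMem (by simpa using hx) _

theorem one_pos {x : ℝ} (hx : 0 < x) : one x = 1 := indicator_of_mem (by simpa using hx) _

theorem cv_one {f : ℝ → ℝ} (f0 : ∀ x ≤ 0, f x = 0) {x : ℝ} (hx : 0 < x) :
    cv one f x = ∫ t in (0:ℝ)..x, f t := by
  rw [cv_comm, cv_apply, intervalIntegral.integral_of_le hx.le, integral_Ioc_eq_integral_Ioo,
    ← integral_indicator measurableSet_Ioo]
  refine integral_congr_ae (Eventually.of_forall fun t => ?_)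
  simp only [indicator]
  split_ifs with h
  · rw [one_pos (by linarith [h.2]), mul_one]
  · by_cases h1 : t ≤ 0
    · rw [f0 t h1, zero_mul]
    · have : ¬ t < x := fun h2 => h ⟨not_le.1 h1, h2⟩
      rw [one_zero (x - t) (by linarith [not_lt.1 this]), mul_zero]

theorem ew_zero_of {f : ℝ → ℝ} (s : ℝ) (f0 : ∀ x ≤ 0, f x = 0) : ∀ x ≤ 0, ew s f x = 0 := by
  intro x hx
  simp [ew, f0 x hx]

theorem ew_integrable {f : ℝ → ℝ} {s : ℝ} (hs : 0 ≤ s) (f0 : ∀ x ≤ 0, f x = 0)
    (hf : Integrable f) : Integrable (ew s f) := by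
  refine Integrable.mono' hf.norm ?_ ?_
  · exact (by fun_prop : Continuous fun x => Real.exp (-(s * x))).aestronglyMeasurable.mul
      hf.aestronglyMeasurable
  · refine Eventually.of_forall fun x => ?_
    simp only [ew]
    by_cases hx : x ≤ 0
    · simp [f0 x hx]
    · rw [norm_mul, Real.norm_eq_abs, abs_of_pos (Real.exp_pos _)]
      refine mul_le_of_le_one_left (norm_nonneg _) ?_
      rw [Real.exp_le_one_iff]
      have : 0 ≤ s * x := mul_nonneg hs (not_le.1 hx).le
      linarith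

theorem mx_ew_integrable {f : ℝ → ℝ} (f0 : ∀ x ≤ 0, f x = 0)
    (hf : Integrable f) : Integrable (mx (ew 1 f)) := by
  refine Integrable.mono' hf.norm ?_ ?_
  · exact (by fun_prop : Continuous fun x : ℝ => x).aestronglyMeasurable.mul
      ((by fun_prop : Continuous fun x => Real.exp (-(1 * x))).aestronglyMeasurable.mul
      hf.aestronglyMeasurable)
  · refine Eventually.of_forall fun x => ?_
    simp only [mx, ew]
    by_cases hx : x ≤ 0
    · simp [f0 x hx]
    · have hx' : 0 < x := not_le.1 hx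
      rw [← mul_assoc, norm_mul, Real.norm_eq_abs, abs_of_nonneg (by positivity)]
      refine mul_le_of_le_one_left (norm_nonneg _) ?_
      have h1 : x ≤ Real.exp x := by linarith [Real.add_one_le_exp x]
      rw [one_mul, Real.exp_neg]
      rw [mul_inv_le_iff₀ (Real.exp_pos _), one_mul]
      exact h1

theorem ew_one_integrable {s : ℝ} (hs : 0 < s) : Integrable (ew s one) := by
  have h1 : IntegrableOn (fun x => Real.exp (-s * x)) (Ioi 0) := exp_neg_integrableOn_Ioi 0 hs
  have h2 := (integrable_indicator_iff measurableSet_Ioi).2 h1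
  refine h2.congr (Eventually.of_forall fun x => ?_)
  simp only [ew, indicator, one]
  split_ifs with h
  · rw [mul_one]; congr 1; ring
  · rw [mul_zero]

/-- The derivation identity. -/
theorem mx_resolvent {g h : ℝ → ℝ} (hg : Integrable g) (hh : Integrable h)
    (hmg : Integrable (mx g)) (hmh : Integrable (mx h)) (E : h + g + cv g h =ᵐ[volume] 0) :
    mx h =ᵐ[volume] -(mx g + (cv (mx g) h + cv (mx g) h) + cv (cv (mx g) h) h) := by
  -- E2 : x h + x g + (x g) * h + g * (x h) = 0
  have E2 : mx h + mx g + cv (mx g) h + cv g (mx h) =ᵐ[volume] 0 := by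
    filter_upwards [E, mx_cv hg hh hmg hmh] with x h1 h2
    simp only [Pi.add_apply, Pi.zero_apply, mx] at *
    have : x * h x + x * g x + x * cv g h x = 0 := by
      rw [← mul_add, ← mul_add, h1, mul_zero]
    linarith
  -- convolve with h
  have i1 : Integrable (cv (mx g) h) := integrable_cv hmg hh
  have i2 : Integrable (cv g (mx h)) := integrable_cv hg hmh
  have E3 : cv (mx h + mx g + cv (mx g) h + cv g (mx h)) h = 0 := by
    rw [cv_congr E2 (ae_eq_refl h)]
    funext x
    simp [cv_apply]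
  have a1 := cv_add_left ((hmh.add hmg).add i1) i2 hh
  have a2 := cv_add_left (hmh.add hmg) i1 hh
  have a3 := cv_add_left hmh hmg hh
  -- (g * (x h)) * h = (g * h) * (x h) = - h * (x h) - g * (x h)
  have a4 : cv (cv g (mx h)) h =ᵐ[volume] - cv (mx h) h - cv g (mx h) := by
    have b1 := cv_assoc hg hmh hh
    have b2 : cv g (cv (mx h) h) = cv g (cv h (mx h)) := by rw [cv_comm (mx h) h]
    have b3 := cv_assoc hg hh hmh
    have b4 : cv (cv g h) (mx h) = cv (-(h + g)) (mx h) := by
      refine cv_congr ?_ (ae_eq_refl _)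
      filter_upwards [E] with x hx
      simp only [Pi.add_apply, Pi.zero_apply, Pi.neg_apply] at *
      linarith
    have b5 : cv (-(h + g)) (mx h) = - cv (h + g) (mx h) := cv_neg_left _ _
    have b6 := cv_add_left hh hg hmh
    have b7 : cv h (mx h) = cv (mx h) h := cv_comm _ _
    filter_upwards [b1, b3, b6] with x c1 c3 c6
    rw [c1, b2, ← c3, b4, b5]
    simp only [Pi.neg_apply, Pi.sub_apply]
    rw [c6, Pi.add_apply, b7]
    ring
  filter_upwards [E2, a1, a2, a3, a4] with x c2 c3 c4 c5 c6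
  have e0 : cv (mx h + mx g + cv (mx g) h + cv g (mx h)) h x = 0 := by rw [E3]; rfl
  simp only [Pi.add_apply, Pi.neg_apply, Pi.sub_apply, Pi.zero_apply] at *
  rw [c3, c4, c5, c6] at e0
  linarith

theorem LI_of_ew {s : ℝ} {B : ℝ → ℝ} (hB : Integrable B) : LI (ew s B) := by
  intro x _
  have h1 : IntervalIntegrable B volume 0 x := hB.intervalIntegrable
  exact h1.continuousOn_mul (f := B) (g := fun x => Real.exp (-(s * x)))
    (by fun_prop : Continuous fun x => Real.exp (-(s * x))).continuousOn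

theorem cv_ew_one {s : ℝ} {B : ℝ → ℝ} (B0 : ∀ x ≤ 0, B x = 0) {x : ℝ} (hx : 0 < x) :
    cv (ew s one) B x = Real.exp (-(s * x)) * ∫ t in (0:ℝ)..x, ew (-s) B t := by
  have h1 : B = ew s (ew (-s) B) := by rw [ew_ew]; simp [ew_zero]
  have h2 : cv (ew s one) B = ew s (cv one (ew (-s) B)) := by
    rw [ew_cv, ← h1]
  rw [h2]
  show Real.exp (-(s * x)) * cv one (ew (-s) B) x = _
  rw [cv_one (ew_zero_of (-s) B0) hx]

theorem ew_contDiffOn {s : ℝ} {n : ℕ∞} {f : ℝ → ℝ} (hf : ContDiffOn ℝ n f (Ioi 0)) :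
    ContDiffOn ℝ n (ew s f) (Ioi 0) := by
  refine ContDiffOn.mul ?_ hf
  exact (by fun_prop : ContDiff ℝ n fun x : ℝ => Real.exp (-(s * x))).contDiffOn

theorem ew_contDiffOn_iff {s : ℝ} {n : ℕ∞} {f : ℝ → ℝ} :
    ContDiffOn ℝ n (ew s f) (Ioi 0) ↔ ContDiffOn ℝ n f (Ioi 0) := by
  refine ⟨fun h => ?_, ew_contDiffOn⟩
  have := ew_contDiffOn (s := -s) h
  rw [ew_ew] at this
  simpa [ew_zero] using this

/-- The bootstrap. -/
theorem boot (sg : ℝ) {β : ℝ} {b K : ℝ → ℝ} (hb : Integrable b)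
    (b0 : ∀ x ≤ 0, b x = 0) (hK : Integrable K) (K0 : ∀ x ≤ 0, K x = 0)
    (cK : ContinuousOn K (Ioi 0)) (m : ℕ) (cb : ContDiffOn ℝ (m : ℕ∞) b (Ioi 0))
    (e : ∀ x, 0 < x → x * K x =
      sg * cv (ew β one) (b + (cv b K + cv b K) + cv (cv b K) K) x) :
    ContDiffOn ℝ ((m + 1 : ℕ) : ℕ∞) K (Ioi 0) := by
  have i1 : Integrable (cv b K) := integrable_cv hb hK
  have i2 : Integrable (cv (cv b K) K) := integrable_cv i1 hK
  have z1 : ∀ x ≤ 0, cv b K x = 0 := cv_zero_of_nonpos b0 K0
  have z2 : ∀ x ≤ 0, cv (cv b K) K x = 0 := cv_zero_of_nonpos z1 K0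
  set B : ℝ → ℝ := b + (cv b K + cv b K) + cv (cv b K) K with hB
  have iB : Integrable B := (hb.add (i1.add i1)).add i2
  have zB : ∀ x ≤ 0, B x = 0 := by
    intro x hx
    simp only [hB, Pi.add_apply, b0 x hx, z1 x hx, z2 x hx, add_zero]
  have step : ∀ j : ℕ, j ≤ m + 1 → ContDiffOn ℝ (j : ℕ∞) K (Ioi 0) := by
    intro j
    induction j with
    | zero => intro _; simpa using cK
    | succ j ih =>
      intro hj
      have hjm : j ≤ m := by omega
      have cKj := ih (by omega)
      have cbj : ContDiffOn ℝ (j : ℕ∞) b (Ioi 0) := cb.of_le (by exact_mod_cast hjm)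
      have c1 : ContDiffOn ℝ (j : ℕ∞) (cv b K) (Ioi 0) := contDiffOn_cv hb hK b0 K0 cbj cKj
      have c2 : ContDiffOn ℝ (j : ℕ∞) (cv (cv b K) K) (Ioi 0) :=
        contDiffOn_cv i1 hK z1 K0 c1 cKj
      have cB : ContDiffOn ℝ (j : ℕ∞) B (Ioi 0) := (cbj.add (c1.add c1)).add c2
      have cE : ContDiffOn ℝ (j : ℕ∞) (ew (-β) B) (Ioi 0) := ew_contDiffOn cB
      have cP := (contDiffOn_prim_iff (LI_of_ew (s := -β) iB) cE.continuousOn j).2 cE
      have cQ : ContDiffOn ℝ ((j + 1 : ℕ) : ℕ∞) (fun x => sg * (Real.exp (-(β * x)) *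
          ∫ t in (0:ℝ)..x, ew (-β) B t) / x) (Ioi 0) := by
        refine ContDiffOn.div (contDiffOn_const.mul (ContDiffOn.mul ?_ cP)) contDiffOn_id ?_
        · exact (by fun_prop : ContDiff ℝ _ fun x : ℝ => Real.exp (-(β * x))).contDiffOn
        · intro x hx; exact ne_of_gt hx
      refine cQ.congr fun x hx => ?_
      have hx0 : (0:ℝ) < x := hx
      have := e x hx0
      rw [cv_ew_one zB hx0] at this
      rw [← this]
      field_simp
  exact step (m + 1) le_rfl

end Pool.Agent.L7h75.SF
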