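import Mathlib
import Pool.Agent.L7h75.SF.Conv
import Pool.Agent.L7h75.SF.Smooth
import Pool.Agent.L7h75.SF.Res

/-!
# Existence and regularity of the resolvent
-/

set_option autoImplicit false

open MeasureTheory Set Filter Topology
open scoped Convolution ENNReal

namespace Pool.Agent.L7h75.SF

/-- The weighted norm becomes small. -/
theorem exists_small {g : ℝ → ℝ} {β₀ : ℝ} (g0 : ∀ x ≤ 0, g x = 0)
    (hgi : ∀ β, β₀ < β → Integrable (ew β g)) :
    ∃ β, β₀ < β ∧ ∫ x, ‖ew β g x‖ < 1 := by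
  have hlim : Tendsto (fun n : ℕ => ∫ x, ‖ew (β₀ + 1 + n) g x‖) atTop (𝓝 (∫ _x : ℝ, (0:ℝ))) := by
    refine tendsto_integral_of_dominated_convergence (fun x => ‖ew (β₀ + 1) g x‖) ?_ ?_ ?_ ?_
    · intro n
      exact (hgi _ (by have : (0:ℝ) ≤ n := Nat.cast_nonneg n; linarith)).norm.aestronglyMeasurable
    · exact (hgi _ (by linarith)).norm
    · intro n
      refine Eventually.of_forall fun x => ?_
      rw [norm_norm]
      by_cases hx : x ≤ 0
      · simp [ew, g0 x hx]
      · have hx' : 0 < x := not_le.1 hx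
        simp only [ew, norm_mul]
        refine mul_le_mul_of_nonneg_right ?_ (norm_nonneg _)
        rw [Real.norm_eq_abs, Real.norm_eq_abs, abs_of_pos (Real.exp_pos _),
          abs_of_pos (Real.exp_pos _), Real.exp_le_exp]
        have : (0:ℝ) ≤ n * x := mul_nonneg (Nat.cast_nonneg n) hx'.le
        nlinarith
    · refine Eventually.of_forall fun x => ?_
      by_cases hx : x ≤ 0
      · simp [ew, g0 x hx]
      · have hx' : 0 < x := not_le.1 hx
        have h1 : Tendsto (fun n : ℕ => Real.exp (-((β₀ + 1 + n) * x))) atTop (𝓝 0) := by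
          refine Real.tendsto_exp_neg_atTop_nhds_zero.comp ?_
          refine Tendsto.atTop_mul_const hx' ?_
          exact tendsto_atTop_add_const_left _ _ tendsto_natCast_atTop_atTop
        have h2 := (h1.mul_const (g x)).norm
        simpa [ew] using h2
  rw [integral_zero] at hlim
  obtain ⟨n, hn⟩ := (hlim.eventually (gt_mem_nhds (show (0:ℝ) < 1 by norm_num))).exists
  exact ⟨β₀ + 1 + n, by have : (0:ℝ) ≤ n := Nat.cast_nonneg n; linarith, hn⟩

/-- Quasi-inverse supported on the half-line. -/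
theorem exists_quasiInverse_pos {g : ℝ → ℝ} (hg : Integrable g) (g0 : ∀ x ≤ 0, g x = 0)
    (h1 : ∫ x, ‖g x‖ < 1) :
    ∃ h : ℝ → ℝ, Integrable h ∧ (∀ x ≤ 0, h x = 0) ∧ h + g + cv g h =ᵐ[volume] 0 := by
  obtain ⟨h, hh, E⟩ := exists_quasiInverse g hg h1
  set hm : ℝ → ℝ := indicator (Iic 0) h with hhm
  have im : Integrable hm := hh.indicator measurableSet_Iic
  have hle : ∀ᵐ x : ℝ, ‖hm x‖ ≤ ‖cv g hm x‖ := by
    filter_upwards [E] with x hx
    by_cases hx0 : x ≤ 0
    · have e1 : hm x = h x := indicator_of_mem (show x ∈ Iic (0:ℝ) from hx0) _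
      have e2 : cv g h x = cv g hm x := by
        rw [cv_apply, cv_apply]
        refine integral_congr_ae (Eventually.of_forall fun t => ?_)
        simp only
        by_cases ht : t ≤ 0
        · rw [g0 t ht, zero_mul, zero_mul]
        · have : x - t ∈ Iic (0:ℝ) := by
            rw [mem_Iic]; linarith [not_le.1 ht]
          rw [hhm, indicator_of_mem this]
      simp only [Pi.add_apply, Pi.zero_apply, g0 x hx0, e2] at hx
      rw [e1]
      have : h x = -cv g hm x := by linarith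
      rw [this, norm_neg]
    · have : hm x = 0 := indicator_of_notMem (show x ∉ Iic (0:ℝ) from hx0) _
      rw [this, norm_zero]
      exact norm_nonneg _
  have e1 : ∫ x, ‖hm x‖ ≤ (∫ x, ‖g x‖) * ∫ x, ‖hm x‖ :=
    (integral_mono_ae im.norm (integrable_cv hg im).norm hle).trans (norm_cv_le hg im)
  have e2 : 0 ≤ ∫ x, ‖hm x‖ := integral_nonneg fun _ => norm_nonneg _
  have e3 : ∫ x, ‖hm x‖ = 0 := by nlinarith
  have e4 : hm =ᵐ[volume] 0 := by
    have := (integral_eq_zero_iff_of_nonneg (fun _ => norm_nonneg _) im.norm).1 e3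
    filter_upwards [this] with x hx
    simpa using hx
  set h' : ℝ → ℝ := indicator (Ioi 0) h with hh'
  have e5 : h' =ᵐ[volume] h := by
    filter_upwards [e4] with x hx
    by_cases hx0 : x ≤ 0
    · have a1 : h' x = 0 := indicator_of_notMem (by simpa using hx0) _
      have a2 : hm x = h x := indicator_of_mem (show x ∈ Iic (0:ℝ) from hx0) _
      rw [a1, ← a2, hx]; rfl
    · exact indicator_of_mem (not_le.1 hx0) _
  refine ⟨h', hh.indicator measurableSet_Ioi, fun x hx =>
    indicator_of_notMem (by simpa using hx) _, ?_⟩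
  have e6 : cv g h' = cv g h := cv_congr (ae_eq_refl _) e5
  rw [e6]
  filter_upwards [E, e5] with x a1 a2
  simp only [Pi.add_apply] at *
  rw [a2]; exact a1

theorem exists_resolvent {g b : ℝ → ℝ} {β₀ : ℝ} (hβ₀ : 0 ≤ β₀) (g0 : ∀ x ≤ 0, g x = 0)
    (b0 : ∀ x ≤ 0, b x = 0) (hgi : ∀ β, β₀ < β → Integrable (ew β g))
    (hbi : ∀ β, β₀ < β → Integrable (ew β b))
    (hgb : ∀ x, 0 < x → x * g x = ∫ t in (0:ℝ)..x, b t) (hgc : ContinuousOn g (Ioi 0)) :
    ∃ β₂, β₀ < β₂ ∧ ∃ h : ℝ → ℝ, (∀ x ≤ 0, h x = 0) ∧ (∀ β, β₂ ≤ β → Integrable (ew β h)) ∧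
      ContinuousOn h (Ioi 0) ∧
      (∀ β, β₂ ≤ β → (1 + ∫ x, ew β g x) * (1 + ∫ x, ew β h x) = 1) ∧
      (∀ m : ℕ, ContDiffOn ℝ (m : ℕ∞) b (Ioi 0) →
        ContDiffOn ℝ ((m + 1 : ℕ) : ℕ∞) h (Ioi 0)) ∧
      (∀ m : ℕ, ContDiffOn ℝ ((m + 1 : ℕ) : ℕ∞) h (Ioi 0) →
        ContDiffOn ℝ ((m + 1 : ℕ) : ℕ∞) g (Ioi 0)) := by
  obtain ⟨β₁, hβ₁, hsm⟩ := exists_small g0 hgi
  have ig1 : Integrable (ew β₁ g) := hgi β₁ hβ₁
  obtain ⟨h1, ih1, h1z, E1⟩ := exists_quasiInverse_pos ig1 (ew_zero_of β₁ g0) hsm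
  set β₂ := 1 + β₁ with hβ₂
  have hβ₂0 : 0 < β₂ := by linarith
  set g2 := ew 1 (ew β₁ g) with hg2
  set h2 := ew 1 h1 with hh2
  have g2z : ∀ x ≤ 0, g2 x = 0 := ew_zero_of _ (ew_zero_of _ g0)
  have h2z : ∀ x ≤ 0, h2 x = 0 := ew_zero_of _ h1z
  have ig2 : Integrable g2 := ew_integrable zero_le_one (ew_zero_of _ g0) ig1
  have ih2 : Integrable h2 := ew_integrable zero_le_one h1z ih1
  have img : Integrable (mx g2) := mx_ew_integrable (ew_zero_of _ g0) ig1
  have imh : Integrable (mx h2) := mx_ew_integrable h1z ih1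
  have g2e : g2 = ew β₂ g := by rw [hg2, ew_ew]
  have E2 : h2 + g2 + cv g2 h2 =ᵐ[volume] 0 := by
    rw [hg2, hh2, ← ew_cv]
    filter_upwards [E1] with x hx
    simp only [Pi.add_apply, Pi.zero_apply, ew] at *
    rw [← mul_add, ← mul_add, hx, mul_zero]
  have E2' : g2 + h2 + cv h2 g2 =ᵐ[volume] 0 := by
    rw [cv_comm h2 g2, add_comm g2 h2]; exact E2
  -- the kernel b
  set b2 := ew β₂ b with hb2
  have b2z : ∀ x ≤ 0, b2 x = 0 := ew_zero_of _ b0
  have ib2 : Integrable b2 := hbi β₂ (by linarith)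
  have ie2 : Integrable (ew β₂ one) := ew_one_integrable hβ₂0
  have ez : ∀ x ≤ 0, ew β₂ one x = 0 := ew_zero_of _ one_zero
  have mg_eq : mx g2 = cv (ew β₂ one) b2 := by
    funext x
    by_cases hx : x ≤ 0
    · rw [cv_zero_of_nonpos ez b2z x hx]
      simp only [mx, g2z x hx, mul_zero]
    · have hx' := not_le.1 hx
      rw [cv_ew_one b2z hx']
      have : ew (-β₂) b2 = b := by rw [hb2, ew_ew]; simp [ew_zero]
      rw [this, ← hgb x hx', g2e]
      simp only [mx, ew]; ring
  -- general transfer identity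
  have trans : ∀ {f k : ℝ → ℝ}, Integrable f → Integrable k →
      cv (ew β₂ one) f + (cv (cv (ew β₂ one) f) k + cv (cv (ew β₂ one) f) k) +
        cv (cv (cv (ew β₂ one) f) k) k =ᵐ[volume]
      cv (ew β₂ one) (f + (cv f k + cv f k) + cv (cv f k) k) := by
    intro f k hf hk
    have ifk := integrable_cv hf hk
    have ifkk := integrable_cv ifk hk
    have c1 := cv_assoc ie2 hf hk
    have c2 : cv (cv (cv (ew β₂ one) f) k) k = cv (cv (ew β₂ one) (cv f k)) k :=
      cv_congr c1 (ae_eq_refl _)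
    have c3 := cv_assoc ie2 ifk hk
    have c4 := cv_add_right ie2 (hf.add (ifk.add ifk)) ifkk
    have c5 := cv_add_right ie2 hf (ifk.add ifk)
    have c6 := cv_add_right ie2 ifk ifk
    filter_upwards [c1, c3, c4, c5, c6] with x d1 d3 d4 d5 d6
    rw [d4]
    simp only [Pi.add_apply]
    rw [d5]
    simp only [Pi.add_apply]
    rw [d6, c2, d1, d3]
    rfl
  -- formula for x h2
  have R1 := mx_resolvent ig2 ih2 img imh E2
  rw [mg_eq] at R1
  have R2 := trans ib2 ih2
  -- continuous version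
  set B : ℝ → ℝ := b2 + (cv b2 h2 + cv b2 h2) + cv (cv b2 h2) h2 with hB
  have ib2h : Integrable (cv b2 h2) := integrable_cv ib2 ih2
  have ib2hh : Integrable (cv (cv b2 h2) h2) := integrable_cv ib2h ih2
  have iB : Integrable B := (ib2.add (ib2h.add ib2h)).add ib2hh
  have z1 : ∀ x ≤ 0, cv b2 h2 x = 0 := cv_zero_of_nonpos b2z h2z
  have z2 : ∀ x ≤ 0, cv (cv b2 h2) h2 x = 0 := cv_zero_of_nonpos z1 h2z
  have zB : ∀ x ≤ 0, B x = 0 := by
    intro x hx
    simp only [hB, Pi.add_apply, b2z x hx, z1 x hx, z2 x hx, add_zero]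
  set H : ℝ → ℝ := fun x => if 0 < x then -(cv (ew β₂ one) B x) / x else 0 with hH
  have Hz : ∀ x ≤ 0, H x = 0 := fun x hx => by simp only [hH]; rw [if_neg (not_lt.2 hx)]
  have Hpos : ∀ x, 0 < x → x * H x = - cv (ew β₂ one) B x := by
    intro x hx
    simp only [hH]
    rw [if_pos hx]; field_simp
  have Hae : H =ᵐ[volume] h2 := by
    filter_upwards [R1, R2] with x r1 r2
    by_cases hx : x ≤ 0
    · rw [Hz x hx, h2z x hx]
    · have hx' := not_le.1 hx
      have e1 : x * h2 x = - cv (ew β₂ one) B x := by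
        have : mx h2 x = x * h2 x := rfl
        rw [← this, r1, Pi.neg_apply, r2]
      have e2 := Hpos x hx'
      rw [← e1] at e2
      exact mul_left_cancel₀ hx'.ne' e2
  have iH : Integrable H := ih2.congr Hae.symm
  have BH : B = b2 + (cv b2 H + cv b2 H) + cv (cv b2 H) H := by
    have e1 : cv b2 h2 = cv b2 H := cv_congr (ae_eq_refl _) Hae.symm
    have e2 : cv (cv b2 h2) h2 = cv (cv b2 H) H := by
      rw [e1]; exact cv_congr (ae_eq_refl _) Hae.symm
    rw [hB, e2, e1]
  have LIB : LI (ew (-β₂) B) := LI_of_ew iB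
  have Hform : ∀ x, 0 < x → x * H x = -(Real.exp (-(β₂ * x)) *
      ∫ t in (0:ℝ)..x, ew (-β₂) B t) := by
    intro x hx
    rw [Hpos x hx, cv_ew_one zB hx]
  have Hcont : ContinuousOn H (Ioi 0) := by
    have h3 : ContinuousOn (fun x => -(Real.exp (-(β₂ * x)) *
      ∫ t in (0:ℝ)..x, ew (-β₂) B t) / x) (Ioi 0) := by
      refine ContinuousOn.div (ContinuousOn.neg (ContinuousOn.mul (by fun_prop)
        (prim_continuousOn LIB))) continuousOn_id ?_
      intro x hx; exact ne_of_gt hx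
    refine h3.congr fun x hx => ?_
    have hx0 : (0:ℝ) < x := hx
    show H x = -(Real.exp (-(β₂ * x)) * ∫ t in (0:ℝ)..x, ew (-β₂) B t) / x
    rw [← Hform x hx0]
    field_simp
  set h : ℝ → ℝ := ew (-β₂) H with hh
  have hz : ∀ x ≤ 0, h x = 0 := ew_zero_of _ Hz
  have Hh : H = ew β₂ h := by rw [hh, ew_ew]; simp [ew_zero]
  have ihβ : ∀ β, β₂ ≤ β → Integrable (ew β h) := by
    intro β hβ
    have : ew β h = ew (β - β₂) H := by rw [hh, ew_ew]; ring_nf
    rw [this]
    exact ew_integrable (by linarith) Hz iH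
  refine ⟨β₂, by linarith, h, hz, ihβ, ?_, ?_, ?_, ?_⟩
  · exact ContinuousOn.mul (by fun_prop) Hcont
  · intro β hβ
    have k1 : H + g2 + cv g2 H =ᵐ[volume] 0 := by
      have : cv g2 H = cv g2 h2 := cv_congr (ae_eq_refl _) Hae
      rw [this]
      filter_upwards [E2, Hae] with x a1 a2
      simp only [Pi.add_apply] at *
      rw [a2]; exact a1
    have k2 : ew β h + ew β g + cv (ew β g) (ew β h) =ᵐ[volume] 0 := by
      have e1 : ew β h = ew (β - β₂) H := by rw [hh, ew_ew]; ring_nf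
      have e2 : ew β g = ew (β - β₂) g2 := by rw [g2e, ew_ew]; ring_nf
      rw [e1, e2, ← ew_cv]
      filter_upwards [k1] with x hx
      simp only [Pi.add_apply, Pi.zero_apply, ew] at *
      rw [← mul_add, ← mul_add, hx, mul_zero]
    have i1 := ihβ β hβ
    have i2 := hgi β (by linarith)
    have k3 := integral_congr_ae k2
    have k4 : ∫ x, (ew β h + ew β g + cv (ew β g) (ew β h)) x =
        (∫ x, ew β h x) + (∫ x, ew β g x) + (∫ x, ew β g x) * ∫ x, ew β h x := by
      rw [integral_add' (i1.add i2) (integrable_cv i2 i1), integral_add' i1 i2, integral_cv i2 i1]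
    rw [k4] at k3
    simp only [Pi.zero_apply, integral_zero] at k3
    linear_combination k3
  · intro m hm
    rw [hh, ew_contDiffOn_iff]
    refine boot (-1) (β := β₂) ib2 b2z iH Hz Hcont m (ew_contDiffOn hm) ?_
    intro x hx
    rw [Hpos x hx, BH]; ring
  · intro m hm
    have cH : ContDiffOn ℝ ((m + 1 : ℕ) : ℕ∞) H (Ioi 0) := by rw [Hh]; exact ew_contDiffOn hm
    -- the primitive is C^{m+1}
    have cP : ContDiffOn ℝ ((m + 1 : ℕ) : ℕ∞) (fun x => ∫ t in (0:ℝ)..x, ew (-β₂) B t)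
        (Ioi 0) := by
      have c1 : ContDiffOn ℝ ((m + 1 : ℕ) : ℕ∞)
          (fun x => -(Real.exp (β₂ * x) * (x * H x))) (Ioi 0) :=
        (ContDiffOn.mul (by fun_prop) (ContDiffOn.mul contDiffOn_id cH)).neg
      refine c1.congr fun x hx => ?_
      have hx0 : (0:ℝ) < x := hx
      rw [Hform x hx0]
      have : Real.exp (β₂ * x) * Real.exp (-(β₂ * x)) = 1 := by
        rw [← Real.exp_add]; simp
      linear_combination (-(∫ t in (0:ℝ)..x, ew (-β₂) B t)) * this
    set P : ℝ → ℝ := fun x => ∫ t in (0:ℝ)..x, ew (-β₂) B t with hP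
    have e1 : (((m + 1 : ℕ) : ℕ∞) : WithTop ℕ∞) = ((m : ℕ∞) : WithTop ℕ∞) + 1 := by
      push_cast; rfl
    have cP' := cP
    rw [e1, contDiffOn_succ_iff_deriv_of_isOpen isOpen_Ioi] at cP'
    obtain ⟨dP, _, cdP⟩ := cP'
    -- a smooth version of B
    set B3 : ℝ → ℝ := fun x => if 0 < x then Real.exp (-(β₂ * x)) * deriv P x else 0 with hB3
    have B3z : ∀ x ≤ 0, B3 x = 0 := fun x hx => by simp only [hB3]; rw [if_neg (not_lt.2 hx)]
    have cB3 : ContDiffOn ℝ (m : ℕ∞) B3 (Ioi 0) := by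
      have : ContDiffOn ℝ (m : ℕ∞) (fun x => Real.exp (-(β₂ * x)) * deriv P x) (Ioi 0) :=
        ContDiffOn.mul (by fun_prop) cdP
      refine this.congr fun x hx => ?_
      have hx0 : (0:ℝ) < x := hx
      simp only [hB3]; rw [if_pos hx0]
    have hloc : LocallyIntegrable (ew (-β₂) B) volume := by
      refine (LocallyIntegrable.continuous_mul ?_ ?_ : LocallyIntegrable
        (fun x => Real.exp (-(-β₂ * x)) * B x) volume)
      · fun_prop
      · exact iB.locallyIntegrable
    have B3ae : B3 =ᵐ[volume] B := by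
      filter_upwards [LocallyIntegrable.ae_hasDerivAt_integral hloc] with x hx
      by_cases hx0 : x ≤ 0
      · rw [B3z x hx0, zB x hx0]
      · have hx' := not_le.1 hx0
        simp only [hB3]; rw [if_pos hx']
        have : deriv P x = ew (-β₂) B x := (hx 0).deriv
        rw [this]
        simp only [ew]
        rw [← mul_assoc, ← Real.exp_add]; simp
    have iB3 : Integrable B3 := iB.congr B3ae.symm
    -- formula for x g2
    have S1 := mx_resolvent ih2 ig2 imh img E2'
    have mh_ae : mx h2 =ᵐ[volume] -cv (ew β₂ one) B3 := by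
      have e3 : cv (ew β₂ one) B3 = cv (ew β₂ one) B := cv_congr (ae_eq_refl _) B3ae
      rw [e3]
      filter_upwards [Hae] with x hx
      by_cases hx0 : x ≤ 0
      · simp only [mx, h2z x hx0, mul_zero, Pi.neg_apply, cv_zero_of_nonpos ez zB x hx0, neg_zero]
      · have := Hpos x (not_le.1 hx0)
        rw [hx] at this
        exact this
    have S2 : cv (mx h2) g2 = -cv (cv (ew β₂ one) B3) g2 := by
      rw [cv_congr mh_ae (ae_eq_refl _), cv_neg_left]
    have S3 : cv (cv (mx h2) g2) g2 = -cv (cv (cv (ew β₂ one) B3) g2) g2 := by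
      rw [S2, cv_neg_left]
    have S4 := trans iB3 ig2
    set C : ℝ → ℝ := B3 + (cv B3 g2 + cv B3 g2) + cv (cv B3 g2) g2 with hC
    have S5 : mx g2 =ᵐ[volume] cv (ew β₂ one) C := by
      filter_upwards [S1, mh_ae, S4] with x s1 s2 s4
      rw [s1, ← s4]
      simp only [Pi.neg_apply, Pi.add_apply] at *
      rw [s2, S3, S2]
      simp only [Pi.neg_apply]
      ring
    have icb : Integrable (cv B3 g2) := integrable_cv iB3 ig2
    have iC : Integrable C := (iB3.add (icb.add icb)).add (integrable_cv icb ig2)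
    have y1 : ∀ x ≤ 0, cv B3 g2 x = 0 := cv_zero_of_nonpos B3z g2z
    have zC : ∀ x ≤ 0, C x = 0 := by
      intro x hx
      simp only [hC, Pi.add_apply, B3z x hx, y1 x hx, cv_zero_of_nonpos y1 g2z x hx, add_zero]
    have cg2 : ContinuousOn g2 (Ioi 0) := by
      rw [g2e]; exact ContinuousOn.mul (by fun_prop) hgc
    have S6 : EqOn (mx g2) (cv (ew β₂ one) C) (Ioi 0) := by
      refine Measure.eqOn_open_of_ae_eq (μ := volume) (ae_restrict_of_ae S5) isOpen_Ioi ?_ ?_
      · exact ContinuousOn.mul continuousOn_id cg2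
      · have : ContinuousOn (fun x => Real.exp (-(β₂ * x)) *
            ∫ t in (0:ℝ)..x, ew (-β₂) C t) (Ioi 0) :=
          ContinuousOn.mul (by fun_prop) (prim_continuousOn (LI_of_ew iC))
        refine this.congr fun x hx => ?_
        exact cv_ew_one zC hx
    have cg := boot 1 (β := β₂) iB3 B3z ig2 g2z cg2 m cB3 (by
      intro x hx
      rw [one_mul]
      exact S6 hx)
    rw [g2e, ew_contDiffOn_iff] at cg
    exact cg

end Pool.Agent.L7h75.SF
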