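import Mathlib
import Pool.Agent.L7h75.SF.Conv
import Pool.Agent.L7h75.SF.Lap
import Pool.Agent.L7h75.SF.Smooth
import Pool.Agent.L7h75.SF.Res
import Pool.Agent.L7h75.SF.Res2
import Pool.Agent.L7h75.SF.Ker
import Pool.Agent.L7h75.SF.Ker2

/-!
# Smoothness of scale functions of spectrally negative Lévy processes with a Gaussian component

For a Lévy triplet with `σ ≠ 0` and every `k ≥ 0`: `W ∈ C^{k+3}(0,∞)` if and only if the tail of
the Lévy measure is in `C^k(0,∞)`.

Proof. Let `ψ(β) = (σ²/2) β² (1 + L[g](β))`. Then `g` is locally integrable, `g' = - c T` with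
`T` the tail, `c = 2/σ²`, and `W'' = c h` where `h` is the resolvent of `g`:
`h + g + g * h = 0`. Multiplication by `x` is a derivation of the convolution algebra, so
`x h = - (x g) * (δ + h) * (δ + h)`, and `(x g)' = b := g + x g'` is locally integrable. So
`(x h)' = - b * (δ + h) * (δ + h)`, which gains one derivative on `h` at each step, because the
convolution of two locally integrable functions on the half-line that are `C^n` on `(0,∞)` is
`C^n` on `(0,∞)`. The relation between `g` and `h` is symmetric, which gives the converse.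
-/

set_option autoImplicit false

open MeasureTheory Set Filter Topology
open scoped ENNReal

namespace Pool.Agent.L7h75.SF

theorem integral_ew_one {β : ℝ} (hβ : 0 < β) : ∫ x, ew β one x = 1 / β := by
  have e : ew β one = (Ioi 0).indicator fun x => Real.exp (-β * x) := by
    funext x
    by_cases hx : 0 < x
    · rw [indicator_of_mem (show x ∈ Ioi (0:ℝ) from hx)]
      simp only [ew, one_pos hx, mul_one]; ring_nf
    · rw [indicator_of_notMem (show x ∉ Ioi (0:ℝ) from hx)]
      simp only [ew, one_zero x (not_lt.1 hx), mul_zero]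
  rw [e, integral_indicator measurableSet_Ioi, integral_exp_mul_Ioi (by linarith)]
  simp

theorem integral_pos_part {f : ℝ → ℝ} (f0 : ∀ x ≤ 0, f x = 0) :
    ∫ x in Ioi (0:ℝ), f x = ∫ x, f x := by
  rw [← integral_indicator measurableSet_Ioi]
  congr 1
  funext x
  by_cases hx : 0 < x
  · rw [indicator_of_mem (show x ∈ Ioi (0:ℝ) from hx)]
  · rw [indicator_of_notMem (show x ∉ Ioi (0:ℝ) from hx), f0 x (not_lt.1 hx)]

theorem main (μ : Measure ℝ) (a σ : ℝ) (W : ℝ → ℝ) (hμ : LevyNeg μ) (hσ : σ ≠ 0)
    (hW : ContinuousOn W (Ioi 0)) (β₀ : ℝ)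
    (hL : ∀ β : ℝ, β₀ < β → IntegrableOn (fun x => Real.exp (-(β * x)) * W x) (Ioi 0) ∧
      ∫ x in Ioi (0 : ℝ), Real.exp (-(β * x)) * W x =
        1 / (-(a * β) + σ ^ 2 * β ^ 2 / 2 +
          ∫ x, (Real.exp (β * x) - 1 - (Ioi (-1 : ℝ)).indicator (fun y => β * y) x) ∂μ))
    (k : ℕ) :
    ContDiffOn ℝ ((k + 3 : ℕ) : ℕ∞) W (Ioi 0) ↔ ContDiffOn ℝ (k : ℕ∞) (TT μ) (Ioi 0) := by
  set c : ℝ := 2 / σ ^ 2 with hc
  have hσ2 : 0 < σ ^ 2 := by positivity
  have hcpos : 0 < c := by positivity
  set g : ℝ → ℝ := (Ioi 0).indicator fun x => c * GG a μ x with hg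
  set b : ℝ → ℝ := (Ioi 0).indicator fun x => c * (GG a μ x - x * TT μ x) with hb
  have g0 : ∀ x ≤ 0, g x = 0 := fun x hx => indicator_of_notMem (by simpa using hx) _
  have b0 : ∀ x ≤ 0, b x = 0 := fun x hx => indicator_of_notMem (by simpa using hx) _
  have gpos : ∀ x, 0 < x → g x = c * GG a μ x := fun x hx => indicator_of_mem (by simpa using hx) _
  have bpos : ∀ x, 0 < x → b x = c * (GG a μ x - x * TT μ x) := fun x hx =>
    indicator_of_mem (by simpa using hx) _
  have hgi : ∀ β, 0 < β → Integrable (ew β g) := by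
    intro β hβ
    have h1 := ((GG_laplace hμ a hβ).1.const_mul c)
    have h2 := (integrable_indicator_iff measurableSet_Ioi).2 h1
    refine h2.congr (Eventually.of_forall fun x => ?_)
    by_cases hx : 0 < x
    · rw [indicator_of_mem (show x ∈ Ioi (0:ℝ) from hx)]
      simp only [ew, gpos x hx]; ring
    · rw [indicator_of_notMem (show x ∉ Ioi (0:ℝ) from hx)]
      simp only [ew, g0 x (not_lt.1 hx), mul_zero]
  have hbi : ∀ β, 0 < β → Integrable (ew β b) := by
    intro β hβ
    have h1 := ((BB_integrable hμ a hβ).const_mul c)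
    have h2 := (integrable_indicator_iff measurableSet_Ioi).2 h1
    refine h2.congr (Eventually.of_forall fun x => ?_)
    by_cases hx : 0 < x
    · rw [indicator_of_mem (show x ∈ Ioi (0:ℝ) from hx)]
      simp only [ew, bpos x hx]; ring
    · rw [indicator_of_notMem (show x ∉ Ioi (0:ℝ) from hx)]
      simp only [ew, b0 x (not_lt.1 hx), mul_zero]
  have hgb : ∀ x, 0 < x → x * g x = ∫ t in (0:ℝ)..x, b t := by
    intro x hx
    have h1 : ∫ t in (0:ℝ)..x, b t = ∫ t in (0:ℝ)..x, c * (GG a μ t - t * TT μ t) := by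
      rw [intervalIntegral.integral_of_le hx.le, intervalIntegral.integral_of_le hx.le]
      exact setIntegral_congr_fun measurableSet_Ioc fun t ht => bpos t ht.1
    rw [h1, intervalIntegral.integral_const_mul, ← GG_mul hμ a hx, gpos x hx]
    ring
  have hgc : ContinuousOn g (Ioi 0) :=
    (continuousOn_const.mul (GG_continuousOn hμ a)).congr fun x hx => gpos x hx
  obtain ⟨β₂, hβ₂, h, hz, hhi, hhc, hprod, hfw, hbw⟩ :=
    exists_resolvent le_rfl g0 b0 hgi hbi hgb hgc
  -- local integrability of h and of its primitive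
  have LIh : LI h := by
    have h1 := LI_of_ew (s := -β₂) (hhi β₂ le_rfl)
    rw [ew_ew] at h1
    simpa [ew_zero] using h1
  set Q : ℝ → ℝ := fun x => ∫ t in (0:ℝ)..x, h t with hQ
  have LIQ : LI Q := by
    intro x hx
    have h1 : ContinuousOn Q (uIcc 0 x) :=
      intervalIntegral.continuousOn_primitive_interval' (LIh x hx) left_mem_uIcc
    exact h1.intervalIntegrable
  set P : ℝ → ℝ := fun x => ∫ t in (0:ℝ)..x, Q t with hP
  set Ws : ℝ → ℝ := fun x => c * (x + P x) with hWs
  have cQ : ContinuousOn Q (Ioi 0) := prim_continuousOn LIh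
  have cP : ContinuousOn P (Ioi 0) := prim_continuousOn LIQ
  have cWs : ContinuousOn Ws (Ioi 0) := continuousOn_const.mul (continuousOn_id.add cP)
  -- Laplace transform of Ws
  have key : ∀ β, β₂ < β → IntegrableOn (fun x => Real.exp (-(β * x)) * Ws x) (Ioi 0) ∧
      ∫ x in Ioi (0:ℝ), Real.exp (-(β * x)) * Ws x = c / β ^ 2 * (1 + ∫ x, ew β h x) := by
    intro β hβ
    have hβ0 : 0 < β := by linarith
    have io : Integrable (ew β one) := ew_one_integrable hβ0
    have ih := hhi β hβ.le
    have oz : ∀ x ≤ 0, ew β one x = 0 := ew_zero_of _ one_zero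
    have i1 : Integrable (cv (ew β one) (ew β one)) := integrable_cv io io
    have i2 : Integrable (cv (ew β one) (ew β h)) := integrable_cv io ih
    have i3 : Integrable (cv (ew β one) (cv (ew β one) (ew β h))) := integrable_cv io i2
    have z2 : ∀ x ≤ 0, cv one h x = 0 := cv_zero_of_nonpos one_zero hz
    have v1 : ∀ x, 0 < x → cv (ew β one) (ew β one) x = Real.exp (-(β * x)) * x := by
      intro x hx
      rw [← ew_cv]
      simp only [ew]
      rw [cv_one one_zero hx]
      congr 1
      have : ∫ t in (0:ℝ)..x, one t = ∫ _t in (0:ℝ)..x, (1:ℝ) := by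
        rw [intervalIntegral.integral_of_le hx.le, intervalIntegral.integral_of_le hx.le]
        exact setIntegral_congr_fun measurableSet_Ioc fun t ht => one_pos ht.1
      rw [this]; simp
    have v2 : ∀ x, 0 < x → cv (ew β one) (cv (ew β one) (ew β h)) x =
        Real.exp (-(β * x)) * P x := by
      intro x hx
      rw [← ew_cv, ← ew_cv]
      simp only [ew]
      rw [cv_one z2 hx]
      congr 1
      simp only [hP]
      rw [intervalIntegral.integral_of_le hx.le, intervalIntegral.integral_of_le hx.le]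
      exact setIntegral_congr_fun measurableSet_Ioc fun t ht => cv_one hz ht.1
    have e1 : ∀ x, 0 < x → Real.exp (-(β * x)) * Ws x =
        c * (cv (ew β one) (ew β one) x + cv (ew β one) (cv (ew β one) (ew β h)) x) := by
      intro x hx
      rw [v1 x hx, v2 x hx]
      simp only [hWs]; ring
    have i4 : Integrable (fun x => c * (cv (ew β one) (ew β one) x +
        cv (ew β one) (cv (ew β one) (ew β h)) x)) := (i1.add i3).const_mul c
    refine ⟨i4.integrableOn.congr_fun (fun x hx => (e1 x hx).symm) measurableSet_Ioi, ?_⟩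
    rw [setIntegral_congr_fun measurableSet_Ioi (fun x hx => e1 x hx)]
    rw [integral_pos_part (f := fun x => c * (cv (ew β one) (ew β one) x +
        cv (ew β one) (cv (ew β one) (ew β h)) x))]
    · rw [integral_const_mul, integral_add i1 i3, integral_cv io io, integral_cv io i2,
        integral_cv io ih, integral_ew_one hβ0]
      field_simp
    · intro x hx
      rw [cv_zero_of_nonpos oz oz x hx,
        cv_zero_of_nonpos oz (cv_zero_of_nonpos oz (ew_zero_of _ hz)) x hx]
      ring
  -- identification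
  have hEq : EqOn W Ws (Ioi 0) := by
    refine laplace_unique_cont (β₀ := max β₀ β₂) hW cWs (fun β hβ => (hL β
      ((le_max_left _ _).trans_lt hβ)).1) (fun β hβ => (key β ((le_max_right _ _).trans_lt hβ)).1) ?_
    intro β hβ
    have h1 : β₀ < β := (le_max_left _ _).trans_lt hβ
    have h2 : β₂ < β := (le_max_right _ _).trans_lt hβ
    have hβ0 : 0 < β := by linarith
    rw [(hL β h1).2, (key β h2).2]
    have p1 := hprod β h2.le
    have p2 := (GG_laplace hμ a hβ0).2
    have p3 : ∫ x, ew β g x = c * ∫ x in Ioi (0:ℝ), Real.exp (-(β * x)) * GG a μ x := by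
      rw [← integral_const_mul, ← integral_pos_part (ew_zero_of β g0)]
      refine setIntegral_congr_fun measurableSet_Ioi fun x hx => ?_
      simp only [ew, gpos x hx]; ring
    set I := ∫ x, (Real.exp (β * x) - 1 - (Ioi (-1 : ℝ)).indicator (fun y => β * y) x) ∂μ with hI
    have p4 : 1 + ∫ x, ew β g x = c / β ^ 2 * (-(a * β) + σ ^ 2 * β ^ 2 / 2 + I) := by
      rw [p3]
      have : ∫ x in Ioi (0:ℝ), Real.exp (-(β * x)) * GG a μ x = (-(a * β) + I) / β ^ 2 := by
        rw [← p2]; field_simp
      rw [this, hc]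
      field_simp
      ring
    rw [p4] at p1
    have hne : -(a * β) + σ ^ 2 * β ^ 2 / 2 + I ≠ 0 := by
      intro h0
      rw [h0, mul_zero, zero_mul] at p1
      exact zero_ne_one p1
    rw [div_eq_iff hne]
    linear_combination -p1
  -- smoothness of W versus smoothness of h
  have hWh : ContDiffOn ℝ ((k + 3 : ℕ) : ℕ∞) W (Ioi 0) ↔
      ContDiffOn ℝ ((k + 1 : ℕ) : ℕ∞) h (Ioi 0) := by
    rw [contDiffOn_congr hEq]
    have s1 : ContDiffOn ℝ ((k + 3 : ℕ) : ℕ∞) Ws (Ioi 0) ↔
        ContDiffOn ℝ ((k + 3 : ℕ) : ℕ∞) P (Ioi 0) := by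
      constructor
      · intro h1
        have h2 : ContDiffOn ℝ ((k + 3 : ℕ) : ℕ∞) (fun x => c⁻¹ * Ws x - x) (Ioi 0) :=
          (contDiffOn_const.mul h1).sub contDiffOn_id
        refine h2.congr fun x _ => ?_
        simp only [hWs]
        field_simp
        ring
      · intro h1
        exact contDiffOn_const.mul (contDiffOn_id.add h1)
    rw [s1]
    have s2 := contDiffOn_prim_iff LIQ cQ (k + 2)
    have s3 := contDiffOn_prim_iff LIh hhc (k + 1)
    exact s2.trans s3
  rw [hWh, ← GG_contDiffOn_iff hμ a k]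
  constructor
  · intro h1
    have h2 := hbw k h1
    have h3 : ContDiffOn ℝ ((k + 1 : ℕ) : ℕ∞) (fun x => c⁻¹ * g x) (Ioi 0) :=
      contDiffOn_const.mul h2
    refine h3.congr fun x hx => ?_
    rw [gpos x hx]; field_simp
  · intro h1
    refine hfw k ?_
    have h2 := (GG_contDiffOn_iff hμ a k).1 h1
    have h3 : ContDiffOn ℝ (k : ℕ∞) (GG a μ) (Ioi 0) :=
      h1.of_le (by exact_mod_cast Nat.le_succ k)
    have h4 : ContDiffOn ℝ (k : ℕ∞) (fun x => c * (GG a μ x - x * TT μ x)) (Ioi 0) :=
      contDiffOn_const.mul (h3.sub (contDiffOn_id.mul h2))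
    exact h4.congr fun x hx => bpos x hx

end Pool.Agent.L7h75.SF
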